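import Pool.Agent.E8helper78.NC.Adj

/-!
Coset paths in the abelian quotient `U/R`.
-/

namespace Pool.Agent.E8helper78.NC

universe u

variable {Γ : Type u} [Group Γ]

theorem ab_path [Finite Γ] (R U : Subgroup Γ) (hRU : R ≤ U)
    (hcomm : ∀ u ∈ U, ∀ v ∈ U, u⁻¹ * v⁻¹ * u * v ∈ R) (W : Set Γ) (hW : ∀ w ∈ W, w ∈ U)
    (hgen : ∀ K : Subgroup Γ, R ≤ K → (∀ w ∈ W, w ∈ K) → U ≤ K) :
    ∃ xs : List Γ, CP R W U xs ∧ ((∀ w ∈ W, ∃ k, Odd k ∧ w ^ k ∈ R) → Odd (xs.length + 1)) := by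
  classical
  let P : Set (Subgroup Γ) := {V | R ≤ V ∧ V ≤ U ∧ ∃ xs : List Γ, CP R W V xs ∧
    ((∀ w ∈ W, ∃ k, Odd k ∧ w ^ k ∈ R) → Odd (xs.length + 1))}
  have hPne : P.Nonempty := ⟨R, le_refl _, hRU, [], CP_nil R W, fun _ => by simp⟩
  obtain ⟨V, hV⟩ := Set.Finite.exists_maximal (Set.toFinite P) hPne
  obtain ⟨⟨hRV, hVU, xs, hxs, hodd⟩, hmax⟩ := hV
  by_cases hUV : V = U
  · subst hUV; exact ⟨xs, hxs, hodd⟩
  exfalso
  have : ∃ w ∈ W, w ∉ V := by
    by_contra hcon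
    push Not at hcon
    exact hUV (le_antisymm hVU (hgen V hRV hcon))
  obtain ⟨w, hwW, hwV⟩ := this
  obtain ⟨t, ht, hwt, htd⟩ := exists_exp V w
  have hwU : w ∈ U := hW w hwW
  have hpU : xs.prod ∈ V := (hxs.2.2 _).2 ⟨xs.prod, prod_mem_pp xs, by simp⟩
  set g := xs.prod * w with hg
  have hgU : g ∈ U := U.mul_mem (hVU hpU) hwU
  -- elements of `U` normalise `V`
  have hnorm : ∀ u ∈ U, ∀ v ∈ V, u⁻¹ * v * u ∈ V := by
    intro u hu v hv
    have h1 := hcomm u hu v⁻¹ (U.inv_mem (hVU hv))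
    have e : u⁻¹ * v * u = (u⁻¹ * v⁻¹⁻¹ * u * v⁻¹) * v := by group
    rw [e]; exact V.mul_mem (hRV h1) hv
  -- powers of `g` versus powers of `w`
  have hpow : ∀ k : ℕ, (w ^ k)⁻¹ * g ^ k ∈ V := by
    intro k
    induction k with
    | zero => simp
    | succ k ih =>
      have e : (w ^ (k + 1))⁻¹ * g ^ (k + 1) =
          (w⁻¹ * ((w ^ k)⁻¹ * g ^ k) * w) * (w⁻¹ * xs.prod * w) := by
        rw [pow_succ, pow_succ, hg]; group
      rw [e]
      exact V.mul_mem (hnorm w hwU _ ih) (hnorm w hwU _ hpU)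
  have hgw : ∀ k : ℕ, g ^ k ∈ V ↔ w ^ k ∈ V := by
    intro k
    constructor
    · intro h
      have := V.mul_mem h (V.inv_mem (hpow k))
      simpa using this
    · intro h
      have := V.mul_mem h (hpow k)
      simpa using this
  have hgt : g ^ t ∈ V := (hgw t).2 hwt
  obtain ⟨q', hq', -, hlen⟩ := hxs.iterate hwW t ht (by
    intro k hk hkt y hy hgy
    have h1 : g ^ k ∈ V := by
      have := V.mul_mem hgy (V.inv_mem hy)
      simpa using this
    exact absurd (Nat.le_of_dvd hk (htd k ((hgw k).1 h1))) (by omega))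
  let V' := V ⊔ Subgroup.zpowers g
  have hV' : V' ∈ P := by
    refine ⟨le_trans hRV le_sup_left, sup_le hVU ?_, q', ?_, ?_⟩
    · rw [Subgroup.zpowers_le]; exact hgU
    · refine hq'.congr ?_
      intro x
      exact mem_adj (hnorm g hgU) ht hgt x
    · intro h
      rw [hlen]
      obtain ⟨k, hk, hwk⟩ := h w hwW
      have : Odd t := by
        obtain ⟨c, hc⟩ := htd k (hRV hwk)
        rw [hc] at hk
        exact (Nat.odd_mul.1 hk).1
      exact this.mul (hodd h)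
  have hle : V' ≤ V := hmax hV' le_sup_left
  have hgV : g ∈ V := hle (Subgroup.mem_sup_right (Subgroup.mem_zpowers g))
  apply hwV
  have := V.mul_mem (V.inv_mem hpU) hgV
  simpa [hg] using this

end Pool.Agent.E8helper78.NC
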