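import Pool.Agent.E8helper78.NC.Basic

/-!
Adjoining a normalising element to a subgroup.
-/

namespace Pool.Agent.E8helper78.NC

universe u

variable {Γ : Type u} [Group Γ]

/-- conjugates of `V` by powers of `g` -/
theorem conj_pow_mem {V : Subgroup Γ} {g : Γ} (hn : ∀ v ∈ V, g⁻¹ * v * g ∈ V) (n : ℕ) :
    ∀ v ∈ V, (g ^ n)⁻¹ * v * g ^ n ∈ V := by
  induction n with
  | zero => intro v hv; simpa using hv
  | succ n ih =>
    intro v hv
    have := hn _ (ih v hv)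
    have e : (g ^ (n + 1))⁻¹ * v * g ^ (n + 1) = g⁻¹ * ((g ^ n)⁻¹ * v * g ^ n) * g := by
      rw [pow_succ]; group
    rw [e]; exact this

theorem mem_reduce {V : Subgroup Γ} {g : Γ} {t : ℕ} (ht : 0 < t) (hgt : g ^ t ∈ V) {x : Γ}
    (h : ∃ i : ℕ, (g ^ i)⁻¹ * x ∈ V) : ∃ i < t, (g ^ i)⁻¹ * x ∈ V := by
  obtain ⟨i, hi⟩ := h
  refine ⟨i % t, Nat.mod_lt _ ht, ?_⟩
  have e : g ^ i = g ^ (i % t) * (g ^ t) ^ (i / t) := by
    rw [← pow_mul, ← pow_add, Nat.mod_add_div]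
  rw [e, mul_inv_rev, mul_assoc] at hi
  have := V.mul_mem (V.pow_mem hgt (i / t)) hi
  simpa using this

theorem mem_adj [Finite Γ] {V : Subgroup Γ} {g : Γ} (hn : ∀ v ∈ V, g⁻¹ * v * g ∈ V)
    {t : ℕ} (ht : 0 < t) (hgt : g ^ t ∈ V) (x : Γ) :
    x ∈ V ⊔ Subgroup.zpowers g ↔ ∃ i < t, (g ^ i)⁻¹ * x ∈ V := by
  constructor
  · intro hx
    apply mem_reduce ht hgt
    let K : Submonoid Γ :=
      { carrier := {x | ∃ i : ℕ, (g ^ i)⁻¹ * x ∈ V}
        one_mem' := ⟨0, by simp⟩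
        mul_mem' := by
          rintro x y ⟨i, hi⟩ ⟨j, hj⟩
          refine ⟨i + j, ?_⟩
          have h1 := conj_pow_mem hn j _ hi
          have e : (g ^ (i + j))⁻¹ * (x * y) =
              ((g ^ j)⁻¹ * ((g ^ i)⁻¹ * x) * g ^ j) * ((g ^ j)⁻¹ * y) := by
            rw [pow_add]; group
          rw [e]
          exact V.mul_mem h1 hj }
    let K' : Subgroup Γ :=
      { K with
        inv_mem' := by
          intro x hx
          have e : x⁻¹ = x ^ (orderOf x - 1) := by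
            have h1 : 0 < orderOf x := orderOf_pos x
            rw [inv_eq_iff_mul_eq_one, ← pow_succ', Nat.sub_add_cancel h1, pow_orderOf_eq_one]
          have h2 : x ^ (orderOf x - 1) ∈ K := K.pow_mem hx _
          rw [← e] at h2
          exact h2 }
    have hle : V ⊔ Subgroup.zpowers g ≤ K' := by
      apply sup_le
      · intro v hv; exact ⟨0, by simpa using hv⟩
      · rw [Subgroup.zpowers_le]; exact ⟨1, by simp⟩
    exact hle hx
  · rintro ⟨i, _, h⟩
    have h1 : g ^ i ∈ V ⊔ Subgroup.zpowers g :=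
      Subgroup.pow_mem _ (Subgroup.mem_sup_right (Subgroup.mem_zpowers g)) i
    have h2 := Subgroup.mul_mem _ h1 (Subgroup.mem_sup_left h : _ ∈ V ⊔ Subgroup.zpowers g)
    simpa using h2

/-- the least positive exponent with `g ^ t ∈ V` divides the others -/
theorem exists_exp [Finite Γ] (V : Subgroup Γ) (g : Γ) :
    ∃ t : ℕ, 0 < t ∧ g ^ t ∈ V ∧ ∀ k : ℕ, g ^ k ∈ V → t ∣ k := by
  classical
  have hex : ∃ t : ℕ, 0 < t ∧ g ^ t ∈ V :=
    ⟨orderOf g, orderOf_pos g, by rw [pow_orderOf_eq_one]; exact V.one_mem⟩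
  refine ⟨Nat.find hex, (Nat.find_spec hex).1, (Nat.find_spec hex).2, ?_⟩
  intro k hk
  set t := Nat.find hex with ht
  by_contra hnd
  have hpos : 0 < k % t := Nat.pos_of_ne_zero (fun h => hnd (Nat.dvd_of_mod_eq_zero h))
  have hlt : k % t < t := Nat.mod_lt _ (Nat.find_spec hex).1
  apply Nat.find_min hex hlt
  refine ⟨hpos, ?_⟩
  have e : g ^ k = g ^ (k % t) * (g ^ t) ^ (k / t) := by
    rw [← pow_mul, ← pow_add, Nat.mod_add_div]
  rw [e] at hk
  exact (Subgroup.mul_mem_cancel_right _ (V.pow_mem (Nat.find_spec hex).2 _)).1 hk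

end Pool.Agent.E8helper78.NC
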