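import Mathlib

/-!
Coset paths: lists of group elements whose partial products run through the left cosets
of a subgroup.
-/

namespace Pool.Agent.E8helper78.NC

universe u

variable {Γ : Type u} [Group Γ]

/-- partial products of `l`, beginning with `1` -/
def pp : List Γ → List Γ
  | [] => [1]
  | s :: l => 1 :: (pp l).map (s * ·)

@[simp] theorem pp_nil : pp ([] : List Γ) = [1] := rfl

theorem pp_cons (s : Γ) (l : List Γ) : pp (s :: l) = 1 :: (pp l).map (s * ·) := rfl

@[simp] theorem pp_length (l : List Γ) : (pp l).length = l.length + 1 := by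
  induction l with
  | nil => rfl
  | cons s l ih => simp [pp_cons, ih]

theorem one_mem_pp (l : List Γ) : (1 : Γ) ∈ pp l := by
  cases l <;> simp [pp_cons]

theorem pp_concat (q1 : List Γ) (t : Γ) (q2 : List Γ) :
    pp (q1 ++ t :: q2) = pp q1 ++ (pp q2).map ((q1.prod * t) * ·) := by
  induction q1 with
  | nil => simp [pp_cons]
  | cons s q1 ih =>
    simp only [List.cons_append, pp_cons, ih, List.map_append, List.map_map, List.prod_cons]
    congr 2
    apply List.map_congr_left
    intro x _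
    simp [mul_assoc]

theorem prod_mem_pp (l : List Γ) : l.prod ∈ pp l := by
  induction l with
  | nil => simp
  | cons s l ih =>
    rw [pp_cons, List.prod_cons]
    exact List.mem_cons_of_mem _ (List.mem_map_of_mem ih)

/-- the elements lying in the left cosets `gH`, `g` a partial product of `q` -/
def cov (H : Subgroup Γ) (q : List Γ) : Set Γ := {x | ∃ g ∈ pp q, g⁻¹ * x ∈ H}

/-- partial products lie in pairwise different left cosets -/
def dis (H : Subgroup Γ) (q : List Γ) : Prop := (pp q).Pairwise (fun g g' => g⁻¹ * g' ∉ H)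

/-- `q` is a list from `T` whose partial products run through the left cosets contained in `X`. -/
def CP (H : Subgroup Γ) (T : Set Γ) (X : Set Γ) (q : List Γ) : Prop :=
  (∀ s ∈ q, s ∈ T) ∧ dis H q ∧ ∀ x, x ∈ X ↔ x ∈ cov H q

theorem mem_cov_concat {H : Subgroup Γ} {q1 : List Γ} {t : Γ} {q2 : List Γ} (x : Γ) :
    x ∈ cov H (q1 ++ t :: q2) ↔ x ∈ cov H q1 ∨ (q1.prod * t)⁻¹ * x ∈ cov H q2 := by
  unfold cov
  simp only [Set.mem_ofPred_eq, pp_concat, List.mem_append, List.mem_map]
  constructor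
  · rintro ⟨g, hg | ⟨c, hc, rfl⟩, h⟩
    · exact Or.inl ⟨g, hg, h⟩
    · refine Or.inr ⟨c, hc, ?_⟩
      have : c⁻¹ * ((q1.prod * t)⁻¹ * x) = (q1.prod * t * c)⁻¹ * x := by group
      rw [this]; exact h
  · rintro (⟨g, hg, h⟩ | ⟨c, hc, h⟩)
    · exact ⟨g, Or.inl hg, h⟩
    · refine ⟨_, Or.inr ⟨c, hc, rfl⟩, ?_⟩
      have : c⁻¹ * ((q1.prod * t)⁻¹ * x) = (q1.prod * t * c)⁻¹ * x := by group
      rw [← this]; exact h

theorem CP.concat {H : Subgroup Γ} {T X1 X2 : Set Γ} {q1 q2 : List Γ} {t : Γ}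
    (h1 : CP H T X1 q1) (h2 : CP H T X2 q2) (ht : t ∈ T)
    (hd : ∀ x, x ∈ X1 → (q1.prod * t)⁻¹ * x ∈ X2 → False) :
    CP H T {x | x ∈ X1 ∨ (q1.prod * t)⁻¹ * x ∈ X2} (q1 ++ t :: q2) := by
  refine ⟨?_, ?_, ?_⟩
  · intro s hs
    rw [List.mem_append, List.mem_cons] at hs
    rcases hs with hs | rfl | hs
    · exact h1.1 s hs
    · exact ht
    · exact h2.1 s hs
  · unfold dis
    rw [pp_concat, List.pairwise_append]
    refine ⟨h1.2.1, ?_, ?_⟩
    · rw [List.pairwise_map]
      refine h2.2.1.imp ?_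
      intro a b hab h
      apply hab
      have : a⁻¹ * b = (q1.prod * t * a)⁻¹ * (q1.prod * t * b) := by group
      rw [this]; exact h
    · intro a ha b hb hab
      rw [List.mem_map] at hb
      obtain ⟨c, hc, rfl⟩ := hb
      apply hd (q1.prod * t * c)
      · rw [h1.2.2]; exact ⟨a, ha, hab⟩
      · rw [h2.2.2]
        refine ⟨c, hc, ?_⟩
        have : c⁻¹ * ((q1.prod * t)⁻¹ * (q1.prod * t * c)) = 1 := by group
        rw [this]; exact H.one_mem
  · intro x
    rw [Set.mem_ofPred_eq, mem_cov_concat, h1.2.2, h2.2.2]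

theorem CP.congr {H : Subgroup Γ} {T X X' : Set Γ} {q : List Γ} (h : CP H T X q)
    (hX : ∀ x, x ∈ X' ↔ x ∈ X) : CP H T X' q :=
  ⟨h.1, h.2.1, fun x => (hX x).trans (h.2.2 x)⟩

theorem CP.mono {H : Subgroup Γ} {T T' X : Set Γ} {q : List Γ} (h : CP H T X q)
    (hT : ∀ x ∈ T, x ∈ T') : CP H T' X q :=
  ⟨fun s hs => hT s (h.1 s hs), h.2.1, h.2.2⟩

theorem CP.one_mem {H : Subgroup Γ} {T X : Set Γ} {q : List Γ} (h : CP H T X q) :
    (1 : Γ) ∈ X := by
  rw [h.2.2]; exact ⟨1, one_mem_pp q, by simp⟩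

theorem CP_nil (H : Subgroup Γ) (T : Set Γ) : CP H T (H : Set Γ) [] := by
  refine ⟨by simp, ?_, ?_⟩
  · unfold dis; simp
  · intro x; unfold cov; simp

/-- repeating a coset path `n ≥ 1` times -/
theorem CP.iterate {H : Subgroup Γ} {T X : Set Γ} {q : List Γ} {t : Γ}
    (h : CP H T X q) (ht : t ∈ T) (n : ℕ) (hn : 0 < n)
    (hd : ∀ k, 0 < k → k < n → ∀ y ∈ X, (q.prod * t) ^ k * y ∉ X) :
    ∃ q', CP H T {x | ∃ i < n, ((q.prod * t) ^ i)⁻¹ * x ∈ X} q' ∧
      q'.prod * t = (q.prod * t) ^ n ∧ q'.length + 1 = n * (q.length + 1) := by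
  induction n, hn using Nat.le_induction with
  | base =>
    refine ⟨q, h.congr ?_, by simp, by simp⟩
    intro x; simp
  | succ n hn ih =>
    obtain ⟨q', h', hp, hl⟩ := ih (fun k hk hkn => hd k hk (by omega))
    refine ⟨q' ++ t :: q, ?_, ?_, ?_⟩
    · refine CP.congr (h'.concat h ht ?_) ?_
      · rintro x ⟨i, hi, hx⟩ hx2
        rw [hp] at hx2
        apply hd (n - i) (by omega) (by omega) _ hx2
        have : (q.prod * t) ^ (n - i) * (((q.prod * t) ^ n)⁻¹ * x) = ((q.prod * t) ^ i)⁻¹ * x := by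
          have e : (q.prod * t) ^ n = (q.prod * t) ^ i * (q.prod * t) ^ (n - i) := by
            rw [← pow_add]; congr 1; omega
          rw [e, mul_inv_rev]; group
        rw [this]; exact hx
      · intro x
        simp only [Set.mem_ofPred_eq, hp]
        constructor
        · rintro ⟨i, hi, hx⟩
          rcases Nat.lt_or_ge i n with h1 | h1
          · exact Or.inl ⟨i, h1, hx⟩
          · have : i = n := by omega
            subst this; exact Or.inr hx
        · rintro (⟨i, hi, hx⟩ | hx)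
          · exact ⟨i, by omega, hx⟩
          · exact ⟨n, by omega, hx⟩
    · rw [List.prod_append, List.prod_cons, pow_succ, ← hp]
      simp [mul_assoc]
    · simp only [List.length_append, List.length_cons]
      have : (n + 1) * (q.length + 1) = n * (q.length + 1) + (q.length + 1) := by ring
      rw [this, ← hl]; ring

/-- `l` is a list from `S` whose partial products run through `X` -/
def HPath (S X : Set Γ) (l : List Γ) : Prop :=
  (∀ s ∈ l, s ∈ S) ∧ (pp l).Nodup ∧ ∀ x, x ∈ X ↔ x ∈ pp l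

/-- the set of end points of Hamiltonian paths of `X` beginning at `1` -/
def Wd (S X : Set Γ) : Set Γ := {w | ∃ l, HPath S X l ∧ l.prod = w}

theorem Wd_sub {S X : Set Γ} {w : Γ} (hw : w ∈ Wd S X) : w ∈ X := by
  obtain ⟨l, hl, rfl⟩ := hw
  rw [hl.2.2]; exact prod_mem_pp l

theorem pp_append (l1 l2 : List Γ) :
    pp (l1 ++ l2) = pp l1 ++ ((pp l2).tail).map (l1.prod * ·) := by
  cases l2 with
  | nil => simp
  | cons t l2 =>
    rw [pp_concat, pp_cons]
    simp [mul_assoc, Function.comp_def]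

/-- reversing a list of steps -/
theorem pp_reverse (l : List Γ) :
    (pp ((l.map (·⁻¹)).reverse)) = ((pp l).reverse).map (l.prod⁻¹ * ·) := by
  induction l with
  | nil => simp
  | cons s l ih =>
    have hprod : ((l.map (·⁻¹)).reverse).prod = l.prod⁻¹ := by
      rw [List.prod_inv_reverse]
    rw [List.map_cons, List.reverse_cons]
    rw [pp_concat, ih, pp_cons, List.reverse_cons, List.map_append, hprod,
      List.prod_cons]
    congr 1
    · rw [← List.map_reverse, List.map_map]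
      apply List.map_congr_left
      intro x _
      simp
    · simp

theorem Wd_inv {S : Set Γ} {H : Subgroup Γ} (hS : ∀ s ∈ S, s⁻¹ ∈ S) {w : Γ}
    (hw : w ∈ Wd S H) : w⁻¹ ∈ Wd S H := by
  obtain ⟨l, hl, rfl⟩ := hw
  refine ⟨(l.map (·⁻¹)).reverse, ⟨?_, ?_, ?_⟩, (List.prod_inv_reverse l).symm⟩
  · intro s hs
    rw [List.mem_reverse, List.mem_map] at hs
    obtain ⟨r, hr, rfl⟩ := hs
    exact hS r (hl.1 r hr)
  · rw [pp_reverse]
    apply List.Nodup.map
    · intro a b hab
      exact mul_left_cancel hab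
    · rw [List.nodup_reverse]; exact hl.2.1
  · intro x
    rw [pp_reverse, List.mem_map]
    have hp : l.prod ∈ H := by
      have := (hl.2.2 l.prod).2 (prod_mem_pp l)
      exact this
    constructor
    · intro hx
      refine ⟨l.prod * x, ?_, by group⟩
      rw [List.mem_reverse, ← hl.2.2]
      exact H.mul_mem hp hx
    · rintro ⟨y, hy, rfl⟩
      rw [List.mem_reverse, ← hl.2.2] at hy
      exact H.mul_mem (H.inv_mem hp) hy

/-- lifting a coset path to a Hamiltonian path -/
theorem lift_aux {S : Set Γ} {H : Subgroup Γ} {a : Γ} (ha : a ∈ S) (ha' : a⁻¹ ∈ S)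
    (q : List Γ) (hq : ∀ s ∈ q, ∃ w ∈ Wd S H, s = w * a ∨ s = w * a⁻¹)
    (hd : dis H q) {w : Γ} (hw : w ∈ Wd S H) :
    ∃ L : List Γ, (∀ s ∈ L, s ∈ S) ∧ L.prod = q.prod * w ∧ (pp L).Nodup ∧
      ∀ x, x ∈ pp L ↔ x ∈ cov H q := by
  induction q with
  | nil =>
    obtain ⟨l, hl, rfl⟩ := hw
    refine ⟨l, hl.1, by simp, hl.2.1, ?_⟩
    intro x
    rw [← hl.2.2]; unfold cov; simp
  | cons τ q ih =>
    have hd1 : dis H q ∧ ∀ g ∈ pp q, τ * g ∉ H := by
      unfold dis at hd ⊢
      rw [pp_cons, List.pairwise_cons, List.pairwise_map] at hd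
      refine ⟨hd.2.imp ?_, ?_⟩
      · intro a b hab h
        apply hab
        have : (τ * a)⁻¹ * (τ * b) = a⁻¹ * b := by group
        rw [this]; exact h
      · intro g hg
        have := hd.1 (τ * g) (List.mem_map_of_mem hg)
        simpa using this
    obtain ⟨L, hL1, hL2, hL3, hL4⟩ := ih (fun s hs => hq s (List.mem_cons_of_mem _ hs)) hd1.1
    obtain ⟨v, hv, hτ⟩ := hq τ List.mem_cons_self
    obtain ⟨l, hl, rfl⟩ := hv
    obtain ⟨s, hs, hτ⟩ : ∃ s ∈ S, τ = l.prod * s := by
      rcases hτ with h | h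
      · exact ⟨a, ha, h⟩
      · exact ⟨a⁻¹, ha', h⟩
    refine ⟨l ++ s :: L, ?_, ?_, ?_, ?_⟩
    · intro r hr
      rw [List.mem_append, List.mem_cons] at hr
      rcases hr with hr | rfl | hr
      · exact hl.1 r hr
      · exact hs
      · exact hL1 r hr
    · rw [List.prod_append, List.prod_cons, hL2, List.prod_cons, hτ]
      simp only [mul_assoc]
    · rw [pp_concat, ← hτ, List.nodup_append]
      refine ⟨hl.2.1, ?_, ?_⟩
      · exact hL3.map (fun a b hab => mul_left_cancel hab)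
      · intro x hx y hy hxy
        subst hxy
        rw [List.mem_map] at hy
        obtain ⟨c, hc, rfl⟩ := hy
        rw [← hl.2.2] at hx
        rw [hL4] at hc
        obtain ⟨g, hg, hgc⟩ := hc
        apply hd1.2 g hg
        have : τ * g = (τ * c) * (g⁻¹ * c)⁻¹ := by group
        rw [this]
        exact H.mul_mem hx (H.inv_mem hgc)
    · intro x
      rw [pp_concat, ← hτ, List.mem_append, ← hl.2.2]
      have e : τ :: q = [] ++ τ :: q := rfl
      rw [e, mem_cov_concat]
      have e2 : x ∈ cov H [] ↔ x ∈ H := by unfold cov; simp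
      rw [e2, List.mem_map]
      simp only [SetLike.mem_coe, List.prod_nil, one_mul]
      constructor
      · rintro (h | ⟨c, hc, rfl⟩)
        · exact Or.inl h
        · right; rw [← hL4]; simpa using hc
      · rintro (h | h)
        · exact Or.inl h
        · right; rw [← hL4] at h; exact ⟨_, h, by group⟩

/-- the steps between cosets: an element of `W` followed by `a` or `a⁻¹` -/
def Stp (W : Set Γ) (a : Γ) : Set Γ := {s | ∃ w ∈ W, s = w * a ∨ s = w * a⁻¹}

theorem lift {S : Set Γ} {H J : Subgroup Γ} {a : Γ} (ha : a ∈ S) (ha' : a⁻¹ ∈ S)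
    {q : List Γ} (hq : CP H (Stp (Wd S H) a) J q) {w : Γ} (hw : w ∈ Wd S H) :
    q.prod * w ∈ Wd S (J : Set Γ) := by
  obtain ⟨L, h1, h2, h3, h4⟩ := lift_aux ha ha' q hq.1 hq.2.1 hw
  exact ⟨L, ⟨h1, h3, fun x => (hq.2.2 x).trans (h4 x).symm⟩, h2⟩

end Pool.Agent.E8helper78.NC
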