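import Pool.Agent.E8helper78.NC.Stage

/-!
The coset path when the order `r` of `a` modulo `N` is even.
-/

namespace Pool.Agent.E8helper78.NC

universe u

variable {Γ : Type u} [Group Γ]

/-- `H` is generated by `W` and central elements -/
def Gen (W : Set Γ) (H : Subgroup Γ) : Prop :=
  ∀ h ∈ H, ∃ w ∈ Subgroup.closure W, ∀ z, z * (w⁻¹ * h) = (w⁻¹ * h) * z

/-- the wanted coset path -/
def Concl (hc : CC Γ) (a : Γ) (H : Subgroup Γ) (W : Set Γ) : Prop :=
  ∃ (q' : List Γ) (T : ℕ), CP H (Stp W a) ((H ⊔ Subgroup.zpowers a : Subgroup Γ) : Set Γ) q' ∧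
    0 < T ∧ a ^ T ∈ NN hc a H ∧
    ∀ {A : Type u} [CommGroup A] (π : Γ →* A) (c : A), (∀ w ∈ W, π w = c) → c * c = 1 →
      π q'.prod = (c * π a) ^ (T - 1)

/-- the path in the abelian quotient, for `R = {h ∈ H : φ h ∈ K}` -/
theorem xs_exists [Finite Γ] (hc : CC Γ) {a : Γ} {H : Subgroup Γ} {W : Set Γ}
    (hWH : ∀ w ∈ W, w ∈ H) (hgen : Gen W H) (K : Subgroup Γ) :
    ∃ xs : List Γ, CP (H ⊓ K.comap (phi hc a)) W H xs ∧
      ((∀ w ∈ W, ∃ k, Odd k ∧ w ^ k ∈ H ⊓ K.comap (phi hc a)) → Odd (xs.length + 1)) := by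
  apply ab_path
  · exact inf_le_left
  · intro u hu v hv
    refine ⟨H.mul_mem (H.mul_mem (H.mul_mem (H.inv_mem hu) (H.inv_mem hv)) hu) hv, ?_⟩
    show phi hc a (u⁻¹ * v⁻¹ * u * v) ∈ K
    rw [phi_central hc a (fun z => hc u v z)]
    exact K.one_mem
  · exact hWH
  · intro L hRL hWL h hh
    obtain ⟨w, hw, hcen⟩ := hgen h hh
    have hwL : w ∈ L := by
      have : Subgroup.closure W ≤ L := (Subgroup.closure_le L).2 hWL
      exact this hw
    have hwH : w ∈ H := by
      have : Subgroup.closure W ≤ H := (Subgroup.closure_le H).2 hWH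
      exact this hw
    have h1 : w⁻¹ * h ∈ L := by
      apply hRL
      refine ⟨H.mul_mem (H.inv_mem hwH) hh, ?_⟩
      show phi hc a (w⁻¹ * h) ∈ K
      rw [phi_central hc a hcen]; exact K.one_mem
    have := L.mul_mem hwL h1
    simpa using this

theorem even_case [Finite Γ] (hc : CC Γ) {a : Γ} {H : Subgroup Γ} {W : Set Γ}
    (hWH : ∀ w ∈ W, w ∈ H) (hWi : ∀ w ∈ W, w⁻¹ ∈ W) (hWne : W.Nonempty) (hgen : Gen W H)
    (ha : a ∉ H) {r : ℕ} (hr : 0 < r) (har : a ^ r ∈ NN hc a H)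
    (hrd : ∀ k, a ^ k ∈ NN hc a H → r ∣ k) (hev : Even r) : Concl hc a H W := by
  classical
  set N := NN hc a H with hN
  have haN : a ∉ N := not_mem_NN hc ha
  obtain ⟨xs, hxs, -⟩ := xs_exists hc (a := a) hWH hgen H
  set R := H ⊓ H.comap (phi hc a) with hR
  obtain ⟨f, hf⟩ := hWne
  have hfH := hWH f hf
  have hxW : ∀ x ∈ xs, x ∈ W := hxs.1
  have hxH : ∀ x ∈ xs, x ∈ H := fun x hx => hWH x (hxW x hx)
  have hRR : ∀ b ∈ H, phi hc a b ∈ H → b ∈ R := fun b hb h => ⟨hb, h⟩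
  have hppH := pp_mem hxH
  set L := xs.prod with hL
  have hLH : L ∈ H := hppH _ (prod_mem_pp xs)
  set t' := tl f xs * a with ht'
  have ht'S : t' ∈ Stp W a := ⟨tl f xs, tl_mem xs f hf hxW, Or.inl rfl⟩
  -- the stage
  have hst : CP H (Stp W a) {x | (∃ b ∈ pp xs, (phi hc a b)⁻¹ * x ∈ H) ∨
      (∃ b ∈ ppi xs, (phi hc a b * f * a)⁻¹ * x ∈ H)} (qst a f xs xs) :=
    ⟨steps_qst hWi xs xs f hf hxW hxW,
      dis_qst hc haN hRR xs xs f rfl hfH hxH hxH hxs.2.1 hxs.2.1,
      fun x => (cov_qst hc xs xs f rfl hfH hxH hxH x).symm⟩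
  have hv := prod_qst hc (a := a) xs xs f rfl hfH hxH hxH
  rw [← ht', ← hL] at hv
  set v := (qst a f xs xs).prod * t' with hvdef
  have hvx : ∀ x, v⁻¹ * x ∈ H ↔ (phi hc a L * f * a)⁻¹ * x ∈ H := by
    intro x
    have e : (phi hc a L * f * a)⁻¹ * x = ((phi hc a L * f * a)⁻¹ * v) * (v⁻¹ * x) := by group
    rw [e]
    exact (H.mul_mem_cancel_left hv).symm
  have hpx : pp xs = ppi xs ++ [L] := pp_eq_ppi xs
  have hpw : (ppi xs ++ [L]).Pairwise (fun g g' => g⁻¹ * g' ∉ R) := by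
    rw [← hpx]; exact hxs.2.1
  rw [List.pairwise_append] at hpw
  -- from the second type of coset to `N`
  have hcoset : ∀ b ∈ H, ∀ x, (phi hc a b * f * a)⁻¹ * x ∈ H → a⁻¹ * x ∈ N := by
    intro b hb x hx
    have e : a⁻¹ * x = a⁻¹ * (phi hc a b * f) * a * ((phi hc a b * f * a)⁻¹ * x) := by group
    rw [e]
    apply N.mul_mem _ (H_le_NN hc a H hx)
    apply NN_norm
    exact N.mul_mem (phi_mem_NN hc a H hb) (H_le_NN hc a H hfH)
  -- two cosets of the second type
  have hsecond : ∀ b b' x, (phi hc a b * f * a)⁻¹ * x ∈ H → (phi hc a b' * f * a)⁻¹ * x ∈ H →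
      phi hc a (b⁻¹ * b') ∈ H := by
    intro b b' x h1 h2
    have e : (phi hc a b * f * a)⁻¹ * x * ((phi hc a b' * f * a)⁻¹ * x)⁻¹ =
        phi hc a (b⁻¹ * b') := by
      have e1 : (phi hc a b * f * a)⁻¹ * x * ((phi hc a b' * f * a)⁻¹ * x)⁻¹ =
        (f * a)⁻¹ * ((phi hc a b)⁻¹ * phi hc a b') * (f * a) := by group
      rw [e1, ← map_inv, ← map_mul, phi_comm hc a (b⁻¹ * b')]; group
    rw [← e]
    exact H.mul_mem h1 (H.inv_mem h2)
  have hmix : ∀ b ∈ H, ∀ b' ∈ H, ∀ x, (phi hc a b)⁻¹ * x ∈ H →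
      (phi hc a b' * f * a)⁻¹ * x ∈ H → False := by
    intro b hb b' hb' x h1 h2
    have h3 := hcoset b' hb' x h2
    have h4 : x ∈ N := ⟨b, hb, h1⟩
    have h5 := N.mul_mem h4 (N.inv_mem h3)
    apply haN
    have e : x * (a⁻¹ * x)⁻¹ = a := by group
    rwa [e] at h5
  have h2 : CP H (Stp W a) {x | x ∈ N ∨ a⁻¹ * x ∈ N} (qst a f xs xs ++ t' :: []) := by
    refine (hst.concat (CP_nil H (Stp W a)) ht'S ?_).congr ?_
    · intro x hx1 hx2
      have hx2' := (hvx x).1 hx2
      rcases hx1 with ⟨b, hb, h⟩ | ⟨b, hb, h⟩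
      · exact hmix b (hppH b hb) L hLH x h hx2'
      · have h3 := hsecond b L x h hx2'
        have hbH := hppH b (ppi_sub hb)
        exact hpw.2.2 b hb L (by simp) (hRR _ (H.mul_mem (H.inv_mem hbH) hLH) h3)
    · intro x
      show (x ∈ N ∨ a⁻¹ * x ∈ N) ↔ ((∃ b ∈ pp xs, (phi hc a b)⁻¹ * x ∈ H) ∨
        (∃ b ∈ ppi xs, (phi hc a b * f * a)⁻¹ * x ∈ H)) ∨ v⁻¹ * x ∈ H
      constructor
      · rintro (⟨u, hu, hx⟩ | ⟨u, hu, hx⟩)
        · left; left
          have := (hxs.2.2 u).1 hu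
          obtain ⟨b, hb, hbu⟩ := this
          refine ⟨b, hb, ?_⟩
          have h3 : phi hc a (b⁻¹ * u) ∈ H := hbu.2
          have e : (phi hc a b)⁻¹ * x = phi hc a (b⁻¹ * u) * ((phi hc a u)⁻¹ * x) := by
            rw [map_mul, map_inv]; group
          rw [e]; exact H.mul_mem h3 hx
        · have := (hxs.2.2 (u * f⁻¹)).1 (H.mul_mem hu (H.inv_mem hfH))
          obtain ⟨b, hb, hbu⟩ := this
          have h3 : phi hc a (b⁻¹ * (u * f⁻¹)) ∈ H := hbu.2
          have h4 : (phi hc a b * f * a)⁻¹ * x ∈ H := by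
            have e : (phi hc a b * f * a)⁻¹ * x =
                f⁻¹ * (phi hc a (b⁻¹ * (u * f⁻¹)) * ((phi hc a u)⁻¹ * (a⁻¹ * x))) := by
              have e1 : (phi hc a b * f * a)⁻¹ * x =
                a⁻¹ * f⁻¹ * ((phi hc a b)⁻¹ * x) := by group
              have e2 : a⁻¹ * f⁻¹ = f⁻¹ * phi hc a f⁻¹ * a⁻¹ := by
                have := conj_eq hc a f⁻¹
                rw [← this]; group
              rw [e1, e2, map_mul, map_mul, map_inv, map_inv]
              have c2 : ∀ w, (phi hc a b)⁻¹ * w = w * (phi hc a b)⁻¹ :=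
                fun w => (phi_inv_comm hc a b w).symm
              have c3 : ∀ w, (phi hc a f)⁻¹ * w = w * (phi hc a f)⁻¹ :=
                fun w => (phi_inv_comm hc a f w).symm
              have c4 : ∀ w, (phi hc a u) * w = w * (phi hc a u) :=
                fun w => (phi_comm hc a u w).symm
              calc f⁻¹ * (phi hc a f)⁻¹ * a⁻¹ * ((phi hc a b)⁻¹ * x)
                  = f⁻¹ * ((phi hc a f)⁻¹ * (a⁻¹ * ((phi hc a b)⁻¹ * x))) := by
                    simp only [mul_assoc]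
                _ = f⁻¹ * (a⁻¹ * x * (phi hc a b)⁻¹ * (phi hc a f)⁻¹) := by
                    rw [c3, c2]; simp only [mul_assoc]
                _ = f⁻¹ * ((phi hc a b)⁻¹ * (phi hc a f)⁻¹ * (a⁻¹ * x)) := by
                    rw [mul_assoc ((phi hc a b)⁻¹), c3, c2]
                    simp only [mul_assoc]
                    rw [c3 ((phi hc a b)⁻¹)]
                _ = f⁻¹ * ((phi hc a b)⁻¹ * (phi hc a u * (phi hc a f)⁻¹) *
                      ((phi hc a u)⁻¹ * (a⁻¹ * x))) := by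
                    rw [c4 ((phi hc a f)⁻¹)]; simp only [mul_assoc, mul_inv_cancel_left]
            rw [e]; exact H.mul_mem (H.inv_mem hfH) (H.mul_mem h3 hx)
          rw [hpx, List.mem_append] at hb
          rcases hb with hb | hb
          · left; right; exact ⟨b, hb, h4⟩
          · right
            rw [List.mem_singleton] at hb
            subst hb
            exact (hvx x).2 h4
      · rintro ((⟨b, hb, h⟩ | ⟨b, hb, h⟩) | h)
        · left; exact ⟨b, hppH b hb, h⟩
        · right; exact hcoset b (hppH b (ppi_sub hb)) x h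
        · right; exact hcoset L hLH x ((hvx x).1 h)
  -- iterate
  obtain ⟨n, hn⟩ := hev
  have hn0 : 0 < n := by omega
  have htS : f * a ∈ Stp W a := ⟨f, hf, Or.inl rfl⟩
  set q2 := qst a f xs xs ++ t' :: [] with hq2
  have hq2p : q2.prod = v := by rw [hq2, List.prod_append]; simp [hvdef]
  have hnN := NN_norm hc a H
  have hlv : lev N a v 1 := by
    unfold lev
    rw [pow_one]
    exact hcoset L hLH v hv
  have hlfa : lev N a (f * a) 1 := by
    unfold lev
    rw [pow_one, ← mul_assoc]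
    exact hnN f (H_le_NN hc a H hfH)
  have hlg : lev N a (q2.prod * (f * a)) 2 := by
    rw [hq2p]; exact lev_mul hnN hlv hlfa
  have hlX : ∀ y, y ∈ N ∨ a⁻¹ * y ∈ N → ∃ j, j ≤ 1 ∧ lev N a y j := by
    rintro y (h | h)
    · exact ⟨0, by omega, lev_zero h⟩
    · exact ⟨1, le_refl _, by unfold lev; rwa [pow_one]⟩
  obtain ⟨q', hq', hp', -⟩ := h2.iterate htS n hn0 (by
    intro k hk hkn y hy hgy
    obtain ⟨j, hj, hlj⟩ := hlX y hy
    obtain ⟨i, hi, hli⟩ := hlX _ hgy
    have h3 := lev_mul hnN (lev_pow hnN hlg k) hlj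
    have h4 : a ^ (2 * k + j - i) ∈ N := lev_sub hli h3 (by omega)
    have h5 := hrd _ h4
    have := Nat.le_of_dvd (by omega) h5
    omega)
  refine ⟨q', r, hq'.congr ?_, hr, har, ?_⟩
  · intro x
    show x ∈ H ⊔ Subgroup.zpowers a ↔
      ∃ i < n, ((q2.prod * (f * a)) ^ i)⁻¹ * x ∈ N ∨ a⁻¹ * (((q2.prod * (f * a)) ^ i)⁻¹ * x) ∈ N
    rw [← sup_eq hc, mem_adj hnN hr har]
    constructor
    · rintro ⟨j, hj, hx⟩
      refine ⟨j / 2, by omega, ?_⟩
      have h3 : lev N a ((q2.prod * (f * a)) ^ (j / 2)) (2 * (j / 2)) := lev_pow hnN hlg _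
      have hx' : lev N a x j := hx
      rcases Nat.even_or_odd j with he | ho
      · left
        have : 2 * (j / 2) = j := Nat.two_mul_div_two_of_even he
        rw [this] at h3
        exact lev_quot h3 hx'
      · right
        have h6 : 2 * (j / 2) + 1 = j := Nat.two_mul_div_two_add_one_of_odd ho
        have h7 := lev_mul hnN h3 (show lev N a a 1 by unfold lev; simp [N.one_mem])
        rw [h6] at h7
        have := lev_quot h7 hx'
        rwa [mul_inv_rev, mul_assoc] at this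
    · rintro ⟨i, hi, hx⟩
      have h3 : lev N a ((q2.prod * (f * a)) ^ i) (2 * i) := lev_pow hnN hlg _
      rcases hx with hx | hx
      · refine ⟨2 * i, by omega, ?_⟩
        have := lev_mul hnN h3 (lev_zero hx)
        rw [mul_inv_cancel_left] at this
        exact this
      · refine ⟨2 * i + 1, by omega, ?_⟩
        have h4 : lev N a (((q2.prod * (f * a)) ^ i)⁻¹ * x) 1 := by
          unfold lev; rwa [pow_one]
        have := lev_mul hnN h3 h4
        rw [mul_inv_cancel_left] at this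
        exact this
  · intro A _ π c hcw hcc
    have h3 : π q2.prod = c * π a := by
      rw [hq2, List.prod_append, map_mul, pi_qst π hcw xs xs f hf hxW hxW]
      simp [ht', hcw _ (tl_mem xs f hf hxW)]
    have h4 := congrArg π hp'
    have h3' : π (q2.prod * (f * a)) = c * π a * (c * π a) := by
      rw [map_mul, h3, map_mul, hcw f hf]
    rw [map_mul, map_pow, h3', map_mul, hcw f hf] at h4
    have h5 : (c * π a * (c * π a)) ^ n = (c * π a) ^ (r - 1) * (c * π a) := by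
      rw [← pow_succ, ← pow_two, ← pow_mul]
      congr 1; omega
    rw [h5] at h4
    exact mul_right_cancel h4

end Pool.Agent.E8helper78.NC
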