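import Pool.Agent.E8helper78.NC.Odd

/-!
Hamiltonian paths in the Cayley graphs of finite groups with central commutators.
-/

namespace Pool.Agent.E8helper78.NC

universe u

variable {Γ : Type u} [Group Γ]

/-- homomorphisms to abelian groups that kill the center and the end points kill `H` -/
def CH (S : Set Γ) (H : Subgroup Γ) : Prop :=
  ∀ {A : Type u} [CommGroup A] (π : Γ →* A), (∀ z, (∀ g, g * z = z * g) → π z = 1) →
    (∀ w ∈ Wd S (H : Set Γ), π w = 1) → ∀ h ∈ H, π h = 1

theorem gen_of_CH (hc : CC Γ) {S : Set Γ} {H : Subgroup Γ} (h : CH S H) :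
    Gen (Wd S (H : Set Γ)) H := by
  classical
  let L : Subgroup Γ := Subgroup.closure (Wd S (H : Set Γ)) ⊔ Subgroup.center Γ
  have hcomm : ∀ x y : Γ, x⁻¹ * y⁻¹ * x * y ∈ L := by
    intro x y
    apply Subgroup.mem_sup_right
    rw [Subgroup.mem_center_iff]
    exact fun g => hc x y g
  have hnorm : L.Normal := ⟨by
    intro n hn g
    have e : g * n * g⁻¹ = n * (n⁻¹ * g⁻¹⁻¹ * n * g⁻¹) := by group
    rw [e]
    exact L.mul_mem hn (hcomm n g⁻¹)⟩
  let cg : CommGroup (Γ ⧸ L) :=
    { (inferInstance : Group (Γ ⧸ L)) with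
      mul_comm := by
        intro x y
        obtain ⟨x, rfl⟩ := QuotientGroup.mk_surjective x
        obtain ⟨y, rfl⟩ := QuotientGroup.mk_surjective y
        rw [← QuotientGroup.mk_mul, ← QuotientGroup.mk_mul, QuotientGroup.eq]
        have := hcomm y x
        have e : (x * y)⁻¹ * (y * x) = y⁻¹ * x⁻¹ * y * x := by group
        rw [e]; exact this }
  have key := @h (Γ ⧸ L) cg (QuotientGroup.mk' L) (by
    intro z hz
    rw [QuotientGroup.mk'_apply, QuotientGroup.eq_one_iff]
    apply Subgroup.mem_sup_right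
    rw [Subgroup.mem_center_iff]
    exact hz) (by
    intro w hw
    rw [QuotientGroup.mk'_apply, QuotientGroup.eq_one_iff]
    exact Subgroup.mem_sup_left (Subgroup.subset_closure hw))
  intro x hx
  have h1 := key x hx
  rw [QuotientGroup.mk'_apply, QuotientGroup.eq_one_iff] at h1
  rw [Subgroup.mem_sup_of_normal_right] at h1
  obtain ⟨w, hw, z, hz, hwz⟩ := h1
  refine ⟨w, hw, ?_⟩
  have e : w⁻¹ * x = z := by rw [← hwz]; group
  rw [e]
  exact fun g => (Subgroup.mem_center_iff.1 hz g)

theorem step [Finite Γ] (hc : CC Γ) {S : Set Γ} (hS : ∀ s ∈ S, s⁻¹ ∈ S) {H : Subgroup Γ}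
    {a : Γ} (haS : a ∈ S) (ha : a ∉ H) (hne : (Wd S (H : Set Γ)).Nonempty) (hCH : CH S H) :
    (Wd S ((H ⊔ Subgroup.zpowers a : Subgroup Γ) : Set Γ)).Nonempty ∧
    ∀ {A : Type u} [CommGroup A] (π : Γ →* A), (∀ z, (∀ g, g * z = z * g) → π z = 1) →
      (∀ w ∈ Wd S ((H ⊔ Subgroup.zpowers a : Subgroup Γ) : Set Γ), π w = 1) → π a = 1 := by
  have hgen := gen_of_CH hc hCH
  have hWH : ∀ w ∈ Wd S (H : Set Γ), w ∈ H := fun w hw => Wd_sub hw
  have hWi : ∀ w ∈ Wd S (H : Set Γ), w⁻¹ ∈ Wd S (H : Set Γ) := fun w hw => Wd_inv hS hw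
  obtain ⟨r, hr, har, hrd⟩ := exists_exp (NN hc a H) a
  have hconcl : Concl hc a H (Wd S (H : Set Γ)) := by
    rcases Nat.even_or_odd r with he | ho
    · exact even_case hc hWH hWi hne hgen ha hr har hrd he
    · exact odd_case hc hWH hWi hne hgen ha hr har hrd ho
  obtain ⟨q', T, hq', hT, haT, hπ⟩ := hconcl
  have hlift : ∀ w ∈ Wd S (H : Set Γ),
      q'.prod * w ∈ Wd S ((H ⊔ Subgroup.zpowers a : Subgroup Γ) : Set Γ) :=
    fun w hw => lift haS (hS a haS) hq' hw
  obtain ⟨w0, hw0⟩ := hne
  refine ⟨⟨_, hlift w0 hw0⟩, ?_⟩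
  intro A _ π hz hW
  set c := (π q'.prod)⁻¹ with hcdef
  have hcw : ∀ w ∈ Wd S (H : Set Γ), π w = c := by
    intro w hw
    have := hW _ (hlift w hw)
    rw [map_mul] at this
    rw [hcdef]; exact eq_inv_of_mul_eq_one_right this
  have hcc : c * c = 1 := by
    have h1 := hcw _ (hWi w0 hw0)
    rw [map_inv, hcw w0 hw0] at h1
    nth_rewrite 1 [← h1]
    exact inv_mul_cancel c
  have h2 := hπ π c hcw hcc
  have h3 : (c * π a) ^ (T - 1) * c = 1 := by
    rw [← h2, hcdef]; exact mul_inv_cancel _
  have h4 : (c * π a) ^ T = π a := by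
    have e : (c * π a) ^ T = (c * π a) ^ (T - 1) * (c * π a) := by
      rw [← pow_succ]; congr 1; omega
    rw [e, ← mul_assoc, h3, one_mul]
  have hcp : ∀ n : ℕ, c ^ n = 1 ∨ c ^ n = c := by
    intro n
    rcases Nat.even_or_odd n with ⟨k, hk⟩ | ⟨k, hk⟩
    · left; rw [hk, ← two_mul, pow_mul, pow_two, hcc, one_pow]
    · right; rw [hk, pow_succ, pow_mul, pow_two, hcc, one_pow, one_mul]
  -- values on `H`
  have hH : ∀ h ∈ H, π h = 1 ∨ π h = c := by
    intro h hh
    obtain ⟨w, hw, hwz⟩ := hgen h hh
    have h5 : π w = 1 ∨ π w = c := by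
      let K : Subgroup Γ :=
        { carrier := {x | π x = 1 ∨ π x = c}
          one_mem' := Or.inl (map_one π)
          mul_mem' := by
            rintro x y (hx | hx) (hy | hy)
            · left; rw [map_mul, hx, hy, one_mul]
            · right; rw [map_mul, hx, hy, one_mul]
            · right; rw [map_mul, hx, hy, mul_one]
            · left; rw [map_mul, hx, hy, hcc]
          inv_mem' := by
            rintro x (hx | hx)
            · left; rw [map_inv, hx, inv_one]
            · right; rw [map_inv, hx]; exact inv_eq_of_mul_eq_one_right hcc }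
      have : Subgroup.closure (Wd S (H : Set Γ)) ≤ K :=
        (Subgroup.closure_le K).2 (fun w hw => Or.inr (hcw w hw))
      exact this hw
    have h6 := hz _ hwz
    rw [map_mul, map_inv] at h6
    have h7 : π h = π w := by
      rw [← mul_inv_eq_one, mul_comm]; exact h6
    rw [h7]; exact h5
  obtain ⟨u, hu, hx⟩ := haT
  have h8 : π (a ^ T) = 1 ∨ π (a ^ T) = c := by
    have h9 := hH _ hx
    rw [map_mul, map_inv, hz _ (phi_comm hc a u), inv_one, one_mul] at h9
    exact h9
  have h10 : π a = 1 ∨ π a = c := by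
    rw [mul_pow, ← map_pow] at h4
    rw [← h4]
    rcases hcp T with h | h <;> rcases h8 with h' | h' <;> rw [h, h']
    · left; exact one_mul 1
    · right; exact one_mul c
    · right; exact mul_one c
    · left; exact hcc
  rcases h10 with h | h
  · exact h
  · rw [h, hcc, one_pow, one_mul] at h3
    rw [h, h3]

theorem main_induction [Finite Γ] (hc : CC Γ) {S : Set Γ} (hS : ∀ s ∈ S, s⁻¹ ∈ S)
    (A0 : Finset Γ) : (∀ x ∈ A0, x ∈ S) →
    (∀ x ∈ A0, x ∉ Subgroup.closure ((A0 : Set Γ) \ {x})) →
    (Wd S ((Subgroup.closure (A0 : Set Γ) : Subgroup Γ) : Set Γ)).Nonempty ∧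
      CH S (Subgroup.closure (A0 : Set Γ)) := by
  classical
  induction A0 using Finset.strongInduction with
  | H A0 ih =>
    intro hA hirr
    rcases Finset.eq_empty_or_nonempty A0 with h0 | h0
    · subst h0
      rw [Finset.coe_empty, Subgroup.closure_empty]
      refine ⟨⟨1, [], ⟨by simp, by simp, ?_⟩, by simp⟩, ?_⟩
      · intro x; simp
      · intro A _ π _ _ h hh
        rw [Subgroup.mem_bot] at hh
        rw [hh, map_one]
    · have hstep : ∀ x ∈ A0,
          (Wd S ((Subgroup.closure (A0 : Set Γ) : Subgroup Γ) : Set Γ)).Nonempty ∧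
          ∀ {A : Type u} [CommGroup A] (π : Γ →* A), (∀ z, (∀ g, g * z = z * g) → π z = 1) →
            (∀ w ∈ Wd S ((Subgroup.closure (A0 : Set Γ) : Subgroup Γ) : Set Γ), π w = 1) →
            π x = 1 := by
        intro x hx
        have hco : ((A0.erase x : Finset Γ) : Set Γ) = (A0 : Set Γ) \ {x} := by
          rw [Finset.coe_erase]
        obtain ⟨h1, h2⟩ := ih (A0.erase x) (Finset.erase_ssubset hx)
          (fun y hy => hA y (Finset.mem_of_mem_erase hy)) (by
            intro y hy hy2
            apply hirr y (Finset.mem_of_mem_erase hy)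
            apply Subgroup.closure_mono _ hy2
            rw [hco]
            exact fun z hz => ⟨hz.1.1, hz.2⟩)
        rw [hco] at h1 h2
        have hJ : Subgroup.closure ((A0 : Set Γ) \ {x}) ⊔ Subgroup.zpowers x =
            Subgroup.closure (A0 : Set Γ) := by
          apply le_antisymm
          · apply sup_le
            · exact Subgroup.closure_mono (fun z hz => hz.1)
            · rw [Subgroup.zpowers_le]
              exact Subgroup.subset_closure hx
          · rw [Subgroup.closure_le]
            intro z hz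
            by_cases hzx : z = x
            · subst hzx
              exact Subgroup.mem_sup_right (Subgroup.mem_zpowers z)
            · exact Subgroup.mem_sup_left (Subgroup.subset_closure ⟨hz, hzx⟩)
        have := step hc hS (hA x hx) (hirr x hx) h1 h2
        rw [hJ] at this
        exact this
      obtain ⟨x0, hx0⟩ := h0
      refine ⟨(hstep x0 hx0).1, ?_⟩
      intro A _ π hz hW
      have hle : Subgroup.closure (A0 : Set Γ) ≤ π.ker := by
        rw [Subgroup.closure_le]
        intro x hx
        exact (hstep x hx).2 π hz hW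
      exact fun h hh => hle hh

theorem getElem_pp (l : List Γ) (k : ℕ) (hk : k < (pp l).length) :
    (pp l)[k] = (l.take k).prod := by
  induction l generalizing k with
  | nil =>
    have : k = 0 := by simp at hk; omega
    subst this; simp
  | cons s l ih =>
    cases k with
    | zero => simp [pp_cons]
    | succ k =>
      simp only [pp_cons, List.getElem_cons_succ, List.getElem_map, List.take_succ_cons,
        List.prod_cons]
      rw [ih]

theorem main [Finite Γ] (hc : CC Γ) {S : Set Γ} (hne : S.Nonempty) (hS : ∀ s ∈ S, s⁻¹ ∈ S)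
    (hgen : Subgroup.closure S = ⊤) :
    ∃ a : Fin (Nat.card Γ) → Γ, (∀ i, a i ∈ S) ∧
      Function.Injective (fun k : Fin (Nat.card Γ) => ((List.ofFn a).take (k.val + 1)).prod) := by
  classical
  have : Fintype Γ := Fintype.ofFinite Γ
  let P : Set (Finset Γ) := {s | (∀ x ∈ s, x ∈ S) ∧ Subgroup.closure (s : Set Γ) = ⊤}
  have hPne : P.Nonempty := by
    refine ⟨Finset.univ.filter (· ∈ S), ?_, ?_⟩
    · intro x hx; exact (Finset.mem_filter.1 hx).2
    · rw [← hgen]; congr 1; ext x; simp
  obtain ⟨A0, hA0⟩ := Set.Finite.exists_minimal (Set.toFinite P) hPne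
  obtain ⟨⟨h1, h2⟩, hmin⟩ := hA0
  have hirr : ∀ x ∈ A0, x ∉ Subgroup.closure ((A0 : Set Γ) \ {x}) := by
    intro x hx hxc
    have hP : A0.erase x ∈ P := by
      refine ⟨fun y hy => h1 y (Finset.mem_of_mem_erase hy), ?_⟩
      rw [Finset.coe_erase, eq_top_iff, ← h2, Subgroup.closure_le]
      intro z hz
      by_cases hzx : z = x
      · subst hzx; exact hxc
      · exact Subgroup.subset_closure ⟨hz, hzx⟩
    have h3 : A0 ≤ A0.erase x := hmin hP (Finset.erase_subset x A0)
    exact (Finset.notMem_erase x A0) (h3 hx)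
  obtain ⟨⟨w, l, hl, -⟩, -⟩ := main_induction hc hS A0 h1 hirr
  rw [h2] at hl
  obtain ⟨b, hb⟩ := hne
  have hall : ∀ x : Γ, x ∈ pp l := fun x => (hl.2.2 x).1 (Subgroup.mem_top x)
  have hcard : (pp l).length = Nat.card Γ := by
    rw [Nat.card_eq_fintype_card, ← List.toFinset_card_of_nodup hl.2.1]
    have : (pp l).toFinset = Finset.univ := by
      ext x; simp [hall x]
    rw [this]; rfl
  have hlen : (b :: l).length = Nat.card Γ := by
    rw [← hcard, pp_length]; rfl
  let a : Fin (Nat.card Γ) → Γ := fun i => (b :: l).get (i.cast hlen.symm)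
  have hofn : List.ofFn a = b :: l := by
    apply List.ext_getElem
    · rw [List.length_ofFn, hlen]
    · intro i h1 h2
      simp [a]
  refine ⟨a, ?_, ?_⟩
  · intro i
    have : a i ∈ b :: l := List.get_mem _ _
    rw [List.mem_cons] at this
    rcases this with h | h
    · rw [h]; exact hb
    · exact hl.1 _ h
  · intro i j hij
    simp only [hofn, List.take_succ_cons, List.prod_cons, mul_right_inj] at hij
    have hi : i.val < (pp l).length := by rw [hcard]; exact i.isLt
    have hj : j.val < (pp l).length := by rw [hcard]; exact j.isLt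
    rw [← getElem_pp l i.val hi, ← getElem_pp l j.val hj] at hij
    have := (List.Nodup.getElem_inj_iff hl.2.1).1 hij
    exact Fin.ext this

end Pool.Agent.E8helper78.NC
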