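import Pool.Agent.E8helper78.NC.Even

/-!
The coset path when the order `r` of `a` modulo `N` is odd.
-/

namespace Pool.Agent.E8helper78.NC

universe u

variable {Γ : Type u} [Group Γ]

theorem pw_inj {R : Subgroup Γ} {l : List Γ} (h : l.Pairwise (fun g g' => g⁻¹ * g' ∉ R))
    {b b' : Γ} (hb : b ∈ l) (hb' : b' ∈ l) (hR : b'⁻¹ * b ∈ R) : b = b' := by
  by_contra hne
  have hsymm : Std.Symm (fun g g' : Γ => g⁻¹ * g' ∉ R) := ⟨by
    intro x y hxy hyx
    apply hxy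
    have : x⁻¹ * y = (y⁻¹ * x)⁻¹ := by group
    rw [this]; exact R.inv_mem hyx⟩
  exact h.forall hb' hb (fun e => hne e.symm) hR

theorem aux_pow (g y : Γ) (e T : ℕ) (hT : 0 < T) :
    (g ^ (e + (T - 1)))⁻¹ * (g⁻¹ * y) = (g ^ T)⁻¹ * ((g ^ e)⁻¹ * y) := by
  have l1 : (g ^ (e + (T - 1)))⁻¹ * (g⁻¹ * y) = (g * g ^ (e + (T - 1)))⁻¹ * y := by
    rw [mul_inv_rev, mul_assoc]
  have l2 : (g ^ T)⁻¹ * ((g ^ e)⁻¹ * y) = (g ^ e * g ^ T)⁻¹ * y := by
    rw [mul_inv_rev, mul_assoc]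
  rw [l1, l2, ← pow_succ', ← pow_add]
  congr 3
  omega

theorem aux_comm (g y : Γ) (i : ℕ) : g⁻¹ * ((g ^ i)⁻¹ * y) = (g ^ i)⁻¹ * (g⁻¹ * y) := by
  rw [← mul_assoc, ← mul_assoc, ← mul_inv_rev, ← mul_inv_rev, ← pow_succ, ← pow_succ']

theorem odd_case [Finite Γ] (hc : CC Γ) {a : Γ} {H : Subgroup Γ} {W : Set Γ}
    (hWH : ∀ w ∈ W, w ∈ H) (hWi : ∀ w ∈ W, w⁻¹ ∈ W) (hWne : W.Nonempty) (hgen : Gen W H)
    (ha : a ∉ H) {r : ℕ} (hr : 0 < r) (har : a ^ r ∈ NN hc a H)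
    (hrd : ∀ k, a ^ k ∈ NN hc a H → r ∣ k) (hodd : Odd r) : Concl hc a H W := by
  classical
  set N := NN hc a H with hN
  have haN : a ∉ N := not_mem_NN hc ha
  obtain ⟨u0, hu0, hκ⟩ := har
  set κ := phi hc a u0 with hκdef
  have hκc : ∀ z, z * κ = κ * z := phi_comm hc a u0
  -- `φ(x)^r ∈ H`
  have hphir : ∀ x ∈ H, phi hc a x ^ r ∈ H := by
    intro x hx
    have h1 := conj_pow_eq hc a x r
    have e : phi hc a x ^ r = x⁻¹ * ((κ⁻¹ * a ^ r)⁻¹ * x * (κ⁻¹ * a ^ r)) := by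
      have e1 : (κ⁻¹ * a ^ r)⁻¹ * x * (κ⁻¹ * a ^ r) = (a ^ r)⁻¹ * (κ * x * κ⁻¹) * a ^ r := by
        group
      have e2 : κ * x * κ⁻¹ = x := by rw [← hκc x]; group
      rw [e1, e2, h1]; group
    rw [e]
    exact H.mul_mem (H.inv_mem hx) (H.mul_mem (H.mul_mem (H.inv_mem hκ) hx) hκ)
  obtain ⟨o, ho, hκo, hod⟩ := exists_exp H κ
  have hor : o ∣ r := hod r (hphir u0 hu0)
  have hoodd : Odd o := by
    obtain ⟨c, hc'⟩ := hor
    rw [hc'] at hodd
    exact (Nat.odd_mul.1 hodd).1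
  set H1 := H ⊔ Subgroup.zpowers κ with hH1
  have hκn : ∀ v ∈ H, κ⁻¹ * v * κ ∈ H := by
    intro v hv
    have e : κ⁻¹ * v * κ = v := by rw [mul_assoc, hκc v]; group
    rw [e]; exact hv
  have hH1mem : ∀ x, x ∈ H1 ↔ ∃ i < o, (κ ^ i)⁻¹ * x ∈ H := fun x => mem_adj hκn ho hκo x
  obtain ⟨xs, hxs, hpar⟩ := xs_exists hc (a := a) hWH hgen H1
  set R := H ⊓ H1.comap (phi hc a) with hR
  have hxodd : Odd (xs.length + 1) := by
    apply hpar
    intro w hw
    refine ⟨r, hodd, H.pow_mem (hWH w hw) r, ?_⟩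
    show phi hc a (w ^ r) ∈ H1
    rw [map_pow]
    exact Subgroup.mem_sup_left (hphir w (hWH w hw))
  obtain ⟨M, hM⟩ : ∃ M, xs.length = 2 * M := by
    obtain ⟨M, hM⟩ := hxodd
    exact ⟨M, by omega⟩
  obtain ⟨f, hf⟩ := hWne
  have hfH := hWH f hf
  have hxW : ∀ x ∈ xs, x ∈ W := hxs.1
  have hxH : ∀ x ∈ xs, x ∈ H := fun x hx => hWH x (hxW x hx)
  have hRR : ∀ b ∈ H, phi hc a b ∈ H → b ∈ R := fun b hb h => ⟨hb, Subgroup.mem_sup_left h⟩
  have hppH := pp_mem hxH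
  set ls := xs.take M with hls
  set rs := xs.drop M with hrs
  have hxsplit : xs = ls ++ rs := (List.take_append_drop M xs).symm
  have hlen : ls.length = rs.length := by
    rw [hls, hrs, List.length_take, List.length_drop]; omega
  have hlW : ∀ x ∈ ls, x ∈ W := fun x hx => hxW x (List.mem_of_mem_take hx)
  have hrW : ∀ x ∈ rs, x ∈ W := fun x hx => hxW x (List.mem_of_mem_drop hx)
  have hlH : ∀ x ∈ ls, x ∈ H := fun x hx => hWH x (hlW x hx)
  have hrH : ∀ x ∈ rs, x ∈ H := fun x hx => hWH x (hrW x hx)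
  set L := ls.prod with hL
  have hLH : L ∈ H := pp_mem hlH _ (prod_mem_pp ls)
  have hpx : pp xs = ppi ls ++ (pp rs).map (L * ·) := by
    conv_lhs => rw [hxsplit]
    rw [pp_append']
  have hpw0 : (pp xs).Pairwise (fun g g' => g⁻¹ * g' ∉ R) := hxs.2.1
  have hpw := hpw0
  rw [hpx, List.pairwise_append] at hpw
  obtain ⟨hpw1, hpw2, hpw3⟩ := hpw
  have hdl : dis R ls := by
    unfold dis
    rw [pp_eq_ppi, List.pairwise_append]
    refine ⟨hpw1, by simp, ?_⟩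
    intro b hb b' hb'
    rw [List.mem_singleton] at hb'
    subst hb'
    apply hpw3 b hb
    rw [List.mem_map]
    exact ⟨1, one_mem_pp rs, by rw [mul_one]⟩
  have hdr : dis R rs := by
    unfold dis
    rw [List.pairwise_map] at hpw2
    refine hpw2.imp ?_
    intro x y hxy h
    apply hxy
    have : (L * x)⁻¹ * (L * y) = x⁻¹ * y := by group
    rw [this]; exact h
  set t' := tl f ls * a with ht'
  have ht'S : t' ∈ Stp W a := ⟨tl f ls, tl_mem ls f hf hlW, Or.inl rfl⟩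
  have hv := prod_qst hc (a := a) ls rs f hlen hfH hlH hrH
  rw [← ht', ← hL] at hv
  set v := (qst a f ls rs).prod * t' with hvdef
  set h' := (phi hc a L * f * a)⁻¹ * v with hh'
  have hvh : v = phi hc a L * f * a * h' := by rw [hh']; group
  -- `v` modulo `N`
  have hnN := NN_norm hc a H
  have hlv : lev N a v 1 := by
    unfold lev
    rw [pow_one, hvh]
    have e : a⁻¹ * (phi hc a L * f * a * h') = a⁻¹ * (phi hc a L * f) * a * h' := by group
    rw [e]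
    apply N.mul_mem _ (H_le_NN hc a H hv)
    apply hnN
    exact N.mul_mem (phi_mem_NN hc a H hLH) (H_le_NN hc a H hfH)
  -- `v ^ r` modulo `H`
  have hvr : κ⁻¹ * v ^ r ∈ H := by
    have e1 : v = phi hc a (L * f) * (a * (f * h')) := by
      rw [hvh, map_mul]
      have h1 := conj_eq hc a f
      have h2 : f * a = a * (f * phi hc a f) := by rw [← h1]; group
      calc phi hc a L * f * a * h' = phi hc a L * (f * a) * h' := by simp only [mul_assoc]
        _ = phi hc a L * (a * (f * phi hc a f)) * h' := by rw [h2]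
        _ = phi hc a L * ((a * f) * phi hc a f) * h' := by simp only [mul_assoc]
        _ = phi hc a L * (phi hc a f * (a * f)) * h' := by rw [phi_comm hc a f (a * f)]
        _ = _ := by simp only [mul_assoc]
    have hcm : Commute (phi hc a (L * f)) (a * (f * h')) := (phi_comm hc a (L * f) _).symm
    have e2 : v ^ r = phi hc a (L * f) ^ r * (a ^ r * (f * h') ^ r *
        phi hc a (f * h') ^ (r * (r - 1) / 2)) := by
      conv_lhs => rw [e1]
      rw [hcm.mul_pow, pow_mul_eq hc]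
    have hz : phi hc a (L * f) ^ r ∈ H := hphir _ (H.mul_mem hLH hfH)
    have hfh : f * h' ∈ H := H.mul_mem hfH hv
    have e3 : κ⁻¹ * v ^ r = phi hc a (L * f) ^ r * ((κ⁻¹ * a ^ r) * (f * h') ^ r *
        phi hc a (f * h') ^ (r * (r - 1) / 2)) := by
      rw [e2]
      have hk : κ⁻¹ * phi hc a (L * f) ^ r = phi hc a (L * f) ^ r * κ⁻¹ := by
        rw [← map_pow]; exact phi_comm hc a _ _
      rw [← mul_assoc κ⁻¹, hk]; simp only [mul_assoc]
    rw [e3]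
    refine H.mul_mem hz (H.mul_mem (H.mul_mem hκ (H.pow_mem hfh r)) ?_)
    obtain ⟨s, hs⟩ := hodd
    have e4 : r * (r - 1) / 2 = r * s := by
      rw [hs]
      have : (2 * s + 1) * (2 * s + 1 - 1) = ((2 * s + 1) * s) * 2 := by
        rw [Nat.add_sub_cancel]; ring
      rw [this, Nat.mul_div_cancel _ (by norm_num)]
    rw [e4, pow_mul]
    exact H.pow_mem (hphir _ hfh) s
  have hvrt : ∀ t : ℕ, (κ ^ t)⁻¹ * v ^ (r * t) ∈ H := by
    intro t
    have hcm : Commute κ (κ⁻¹ * v ^ r) := (hκc _).symm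
    have e : v ^ (r * t) = κ ^ t * (κ⁻¹ * v ^ r) ^ t := by
      rw [← hcm.mul_pow, mul_inv_cancel_left, pow_mul]
    rw [e, inv_mul_cancel_left]
    exact H.pow_mem hvr t
  have hvT : v ^ (r * o) ∈ H := by
    have := H.mul_mem hκo (hvrt o)
    simpa using this
  -- the representatives `γ b`
  set γ : Γ → Γ := fun b => phi hc a (b * L⁻¹) with hγ
  have hγc : ∀ b z, z * γ b = γ b * z := fun b z => phi_comm hc a _ z
  have hγic : ∀ b z, z * (γ b)⁻¹ = (γ b)⁻¹ * z := fun b z => phi_inv_comm hc a _ z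
  have hγN : ∀ b ∈ H, γ b ∈ N := fun b hb => phi_mem_NN hc a H (H.mul_mem hb (H.inv_mem hLH))
  have hγγ : ∀ b b', (γ b')⁻¹ * γ b = phi hc a (b'⁻¹ * b) := by
    intro b b'
    rw [hγ]
    simp only [map_mul, map_inv, mul_inv_rev, inv_inv]
    have c1 : phi hc a L * (phi hc a b')⁻¹ = (phi hc a b')⁻¹ * phi hc a L :=
      phi_inv_comm hc a b' _
    have c2 : ∀ z, phi hc a L * z = z * phi hc a L := fun z => (phi_comm hc a L z).symm
    rw [c1, mul_assoc, ← mul_assoc (phi hc a L), c2 (phi hc a b), mul_assoc, mul_inv_cancel,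
      mul_one]
  have hK : ∀ e : ℕ, ∀ b ∈ H, ∀ b' ∈ H, (γ b')⁻¹ * (v ^ e * γ b) ∈ H →
      b'⁻¹ * b ∈ R ∧ (b = b' → r * o ∣ e) := by
    intro e b hb b' hb' h
    have h1 : v ^ e ∈ N := by
      have h2 := N.mul_mem (N.mul_mem (hγN b' hb') (H_le_NN hc a H h)) (N.inv_mem (hγN b hb))
      have e1 : γ b' * ((γ b')⁻¹ * (v ^ e * γ b)) * (γ b)⁻¹ = v ^ e := by group
      rwa [e1] at h2
    have h3 : lev N a (v ^ e) e := by
      have := lev_pow hnN hlv e
      rwa [one_mul] at this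
    have h4 := lev_sub (lev_zero h1) h3 (Nat.zero_le _)
    rw [Nat.sub_zero] at h4
    obtain ⟨s, hs⟩ := hrd _ h4
    have h5 := hvrt s
    rw [← hs] at h5
    have h6 : phi hc a (b'⁻¹ * b) * κ ^ s ∈ H := by
      have e2 : phi hc a (b'⁻¹ * b) * κ ^ s =
          ((γ b')⁻¹ * (v ^ e * γ b)) * ((κ ^ s)⁻¹ * v ^ e)⁻¹ := by
        rw [hγc b (v ^ e), ← mul_assoc, hγγ]; group
      rw [e2]; exact H.mul_mem h (H.inv_mem h5)
    constructor
    · refine ⟨H.mul_mem (H.inv_mem hb') hb, ?_⟩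
      show phi hc a (b'⁻¹ * b) ∈ H1
      have h7 : κ ^ s ∈ H1 :=
        Subgroup.pow_mem _ (Subgroup.mem_sup_right (Subgroup.mem_zpowers κ)) s
      have h8 := H1.mul_mem (Subgroup.mem_sup_left h6 : _ ∈ H ⊔ Subgroup.zpowers κ)
        (H1.inv_mem h7)
      rwa [mul_inv_cancel_right] at h8
    · intro hbb
      subst hbb
      rw [inv_mul_cancel, map_one, one_mul] at h6
      rw [hs]
      exact Nat.mul_dvd_mul_left r (hod s h6)
  -- the stage
  set Bl := (pp rs).map (L * ·) with hBl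
  have hBpp : ∀ b ∈ Bl, b ∈ pp xs := fun b hb => by rw [hpx]; exact List.mem_append_right _ hb
  have hApp : ∀ b ∈ ppi ls, b ∈ pp xs := fun b hb => by rw [hpx]; exact List.mem_append_left _ hb
  set Xst : Set Γ := {x | (∃ b ∈ Bl, (γ b)⁻¹ * x ∈ H) ∨ (∃ b ∈ ppi ls, (γ b)⁻¹ * (v⁻¹ * x) ∈ H)}
    with hXst
  have hst : CP H (Stp W a) Xst (qst a f ls rs) := by
    refine ⟨steps_qst hWi ls rs f hf hlW hrW,
      dis_qst hc haN hRR ls rs f hlen hfH hlH hrH hdl hdr, ?_⟩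
    intro x
    rw [cov_qst hc ls rs f hlen hfH hlH hrH x]
    show ((∃ b ∈ Bl, (γ b)⁻¹ * x ∈ H) ∨ (∃ b ∈ ppi ls, (γ b)⁻¹ * (v⁻¹ * x) ∈ H)) ↔ _
    apply or_congr
    · have e1 : ∀ b, γ (L * b) = phi hc a b := by
        intro b
        rw [hγ]
        simp only [map_mul, map_inv]
        rw [← phi_comm hc a L, mul_assoc, mul_inv_cancel, mul_one]
      constructor
      · rintro ⟨b, hb, h⟩
        rw [hBl, List.mem_map] at hb
        obtain ⟨b, hb, rfl⟩ := hb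
        rw [e1] at h
        exact ⟨b, hb, h⟩
      · rintro ⟨b, hb, h⟩
        refine ⟨L * b, List.mem_map_of_mem hb, ?_⟩
        rw [e1]; exact h
    · have e2 : ∀ b, (phi hc a b * f * a)⁻¹ * x = h' * ((γ b)⁻¹ * (v⁻¹ * x)) := by
        intro b
        have e3 : h' * ((γ b)⁻¹ * (v⁻¹ * x)) = (γ b)⁻¹ * (h' * (v⁻¹ * x)) := by
          rw [← mul_assoc, hγic b h', mul_assoc]
        have e4 : h' * (v⁻¹ * x) = (phi hc a L * f * a)⁻¹ * x := by
          rw [hh']; group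
        have e5 : (γ b)⁻¹ * ((phi hc a L * f * a)⁻¹ * x) =
            (a⁻¹ * f⁻¹) * ((phi hc a b)⁻¹ * x) := by
          have e6 : (phi hc a L * f * a)⁻¹ * x = (a⁻¹ * f⁻¹) * ((phi hc a L)⁻¹ * x) := by group
          rw [e6, ← mul_assoc, ← hγic b, mul_assoc]
          congr 1
          rw [hγ]
          simp only [map_mul, map_inv, mul_inv_rev, inv_inv]
          have c1 : phi hc a L * (phi hc a b)⁻¹ = (phi hc a b)⁻¹ * phi hc a L :=
            phi_inv_comm hc a b _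
          rw [c1, mul_assoc, mul_inv_cancel_left]
        rw [e3, e4, e5]; group
      constructor
      · rintro ⟨b, hb, h⟩
        refine ⟨b, hb, ?_⟩
        rw [e2]; exact H.mul_mem hv h
      · rintro ⟨b, hb, h⟩
        refine ⟨b, hb, ?_⟩
        rw [e2] at h
        exact (H.mul_mem_cancel_left hv).1 h
  have hT0 : 0 < r * o := Nat.mul_pos hr ho
  -- iterate
  obtain ⟨q', hq', hp', -⟩ := hst.iterate ht'S (r * o) hT0 (by
    intro k hk hkT y hy hvy
    rw [← hvdef] at hvy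
    rcases hy with ⟨b, hb, h1⟩ | ⟨b, hb, h1⟩ <;> rcases hvy with ⟨b', hb', h2⟩ | ⟨b', hb', h2⟩
    · have h3 := H.mul_mem h2 (H.inv_mem h1)
      have e : (γ b')⁻¹ * (v ^ k * y) * ((γ b)⁻¹ * y)⁻¹ = (γ b')⁻¹ * (v ^ k * γ b) := by group
      rw [e] at h3
      obtain ⟨h4, h5⟩ := hK k b (hppH b (hBpp b hb)) b' (hppH b' (hBpp b' hb')) h3
      have h6 := pw_inj hpw0 (hBpp b hb) (hBpp b' hb') h4
      exact absurd (Nat.le_of_dvd hk (h5 h6)) (by omega)
    · -- `y` of type B, `v^k y` of type A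
      have h3 := H.mul_mem h2 (H.inv_mem h1)
      have e : (γ b')⁻¹ * (v⁻¹ * (v ^ k * y)) * ((γ b)⁻¹ * y)⁻¹ =
          (γ b')⁻¹ * (v ^ (k - 1) * γ b) := by
        have e1 : v ^ k = v * v ^ (k - 1) := by rw [← pow_succ']; congr 1; omega
        rw [e1]; group
      rw [e] at h3
      obtain ⟨h4, -⟩ := hK (k - 1) b (hppH b (hBpp b hb)) b' (hppH b' (hApp b' hb')) h3
      exact hpw3 b' hb' b hb h4
    · have h3 := H.mul_mem h2 (H.inv_mem h1)
      have e : (γ b')⁻¹ * (v ^ k * y) * ((γ b)⁻¹ * (v⁻¹ * y))⁻¹ =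
          (γ b')⁻¹ * (v ^ (k + 1) * γ b) := by
        rw [pow_succ]; group
      rw [e] at h3
      obtain ⟨h4, -⟩ := hK (k + 1) b (hppH b (hApp b hb)) b' (hppH b' (hBpp b' hb')) h3
      apply hpw3 b hb b' hb'
      have : b⁻¹ * b' = (b'⁻¹ * b)⁻¹ := by group
      rw [this]; exact R.inv_mem h4
    · have h3 := H.mul_mem h2 (H.inv_mem h1)
      have e : (γ b')⁻¹ * (v⁻¹ * (v ^ k * y)) * ((γ b)⁻¹ * (v⁻¹ * y))⁻¹ =
          (γ b')⁻¹ * (v ^ k * γ b) := by
        have e1 : v⁻¹ * (v ^ k * y) = v ^ k * (v⁻¹ * y) := by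
          rw [← mul_assoc, ← mul_assoc]
          congr 1
          have : Commute v⁻¹ (v ^ k) := ((Commute.refl v).pow_right k).inv_left
          exact this
        rw [e1]; group
      rw [e] at h3
      obtain ⟨h4, h5⟩ := hK k b (hppH b (hApp b hb)) b' (hppH b' (hApp b' hb')) h3
      have h6 := pw_inj hpw0 (hApp b hb) (hApp b' hb') h4
      exact absurd (Nat.le_of_dvd hk (h5 h6)) (by omega))
  rw [← hvdef] at hq' hp'
  refine ⟨q', r * o, hq'.congr ?_, hT0, ?_, ?_⟩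
  · intro x
    show x ∈ H ⊔ Subgroup.zpowers a ↔ ∃ i < r * o, (v ^ i)⁻¹ * x ∈ Xst
    constructor
    · intro hx
      rw [← sup_eq hc, mem_adj hnN hr ⟨u0, hu0, hκ⟩] at hx
      obtain ⟨j, hj, hxj⟩ := hx
      have h3 : lev N a (v ^ j) j := by
        have := lev_pow hnN hlv j
        rwa [one_mul] at this
      obtain ⟨u, hu, hn⟩ := lev_quot h3 (show lev N a x j from hxj)
      obtain ⟨b, hb, hbu⟩ := (hxs.2.2 (u * L)).1 (H.mul_mem hu hLH)
      obtain ⟨i, hi, hκi⟩ := (hH1mem _).1 (show phi hc a (b⁻¹ * (u * L)) ∈ H1 from hbu.2)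
      have hC : (v ^ (j + r * i))⁻¹ * ((γ b)⁻¹ * x) ∈ H := by
        have h4 := hvrt i
        have h5 := H.mul_mem (H.mul_mem (H.inv_mem h4) hκi) hn
        have e : ((κ ^ i)⁻¹ * v ^ (r * i))⁻¹ * ((κ ^ i)⁻¹ * phi hc a (b⁻¹ * (u * L))) *
            ((phi hc a u)⁻¹ * ((v ^ j)⁻¹ * x)) = (v ^ (j + r * i))⁻¹ * ((γ b)⁻¹ * x) := by
          have e1 : phi hc a (b⁻¹ * (u * L)) = phi hc a u * (γ b)⁻¹ := by
            rw [hγ]
            simp only [map_mul, map_inv, mul_inv_rev, inv_inv]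
            rw [phi_inv_comm hc a b (phi hc a L), ← mul_assoc (phi hc a u),
              phi_inv_comm hc a b (phi hc a u), mul_assoc]
          rw [e1, pow_add]
          have e2 : (phi hc a u)⁻¹ * ((v ^ j)⁻¹ * x) = ((phi hc a u)⁻¹ * (v ^ j)⁻¹) * x := by
            rw [mul_assoc]
          calc ((κ ^ i)⁻¹ * v ^ (r * i))⁻¹ * ((κ ^ i)⁻¹ * (phi hc a u * (γ b)⁻¹)) *
                ((phi hc a u)⁻¹ * ((v ^ j)⁻¹ * x))
              = (v ^ (r * i))⁻¹ * (phi hc a u * (((γ b)⁻¹ * (phi hc a u)⁻¹) *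
                ((v ^ j)⁻¹ * x))) := by group
            _ = (v ^ (r * i))⁻¹ * (phi hc a u * (((phi hc a u)⁻¹ * (γ b)⁻¹) *
                ((v ^ j)⁻¹ * x))) := by rw [phi_inv_comm hc a u]
            _ = (v ^ (r * i))⁻¹ * (((γ b)⁻¹ * (v ^ j)⁻¹) * x) := by group
            _ = (v ^ (r * i))⁻¹ * (((v ^ j)⁻¹ * (γ b)⁻¹) * x) := by rw [hγic b]
            _ = (v ^ j * v ^ (r * i))⁻¹ * ((γ b)⁻¹ * x) := by
                rw [mul_inv_rev]; simp only [mul_assoc]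
        rw [e] at h5; exact h5
      rw [hpx, List.mem_append] at hb
      rcases hb with hb | hb
      · -- type A
        have hD : ∃ e : ℕ, (v ^ e)⁻¹ * (v⁻¹ * ((γ b)⁻¹ * x)) ∈ H := by
          refine ⟨j + r * i + (r * o - 1), ?_⟩
          have e : (v ^ (j + r * i + (r * o - 1)))⁻¹ * (v⁻¹ * ((γ b)⁻¹ * x)) =
              (v ^ (r * o))⁻¹ * ((v ^ (j + r * i))⁻¹ * ((γ b)⁻¹ * x)) := by
            exact aux_pow v _ _ _ hT0
          rw [e]
          exact H.mul_mem (H.inv_mem hvT) hC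
        obtain ⟨i', hi', hx'⟩ := mem_reduce hT0 hvT hD
        refine ⟨i', hi', Or.inr ⟨b, hb, ?_⟩⟩
        have e : (γ b)⁻¹ * (v⁻¹ * ((v ^ i')⁻¹ * x)) = (v ^ i')⁻¹ * (v⁻¹ * ((γ b)⁻¹ * x)) := by
          have e1 : v⁻¹ * ((v ^ i')⁻¹ * x) = (v ^ i')⁻¹ * (v⁻¹ * x) := aux_comm v x i'
          rw [e1, ← mul_assoc, ← hγic b, mul_assoc, ← mul_assoc ((γ b)⁻¹), ← hγic b, mul_assoc]
        rw [e]; exact hx'
      · obtain ⟨i', hi', hx'⟩ := mem_reduce hT0 hvT ⟨_, hC⟩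
        refine ⟨i', hi', Or.inl ⟨b, hb, ?_⟩⟩
        have e : (γ b)⁻¹ * ((v ^ i')⁻¹ * x) = (v ^ i')⁻¹ * ((γ b)⁻¹ * x) := by
          rw [← mul_assoc, ← hγic b, mul_assoc]
        rw [e]; exact hx'
    · rintro ⟨i, hi, hx⟩
      have haJ : a ∈ H ⊔ Subgroup.zpowers a := Subgroup.mem_sup_right (Subgroup.mem_zpowers a)
      have hNJ : ∀ n ∈ N, n ∈ H ⊔ Subgroup.zpowers a := fun n hn => NN_le hc a H hn
      have hHJ : ∀ n ∈ H, n ∈ H ⊔ Subgroup.zpowers a := fun n hn => Subgroup.mem_sup_left hn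
      have hvJ : v ∈ H ⊔ Subgroup.zpowers a := by
        have h3 := hNJ _ hlv
        rw [pow_one] at h3
        have := Subgroup.mul_mem _ haJ h3
        rwa [mul_inv_cancel_left] at this
      have hviJ : v ^ i ∈ H ⊔ Subgroup.zpowers a := Subgroup.pow_mem _ hvJ i
      rcases hx with ⟨b, hb, h⟩ | ⟨b, hb, h⟩
      · have h4 := hNJ _ (hγN b (hppH b (hBpp b hb)))
        have h5 := Subgroup.mul_mem _ hviJ (Subgroup.mul_mem _ h4 (hHJ _ h))
        have e : v ^ i * (γ b * ((γ b)⁻¹ * ((v ^ i)⁻¹ * x))) = x := by group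
        rwa [e] at h5
      · have h4 := hNJ _ (hγN b (hppH b (hApp b hb)))
        have h5 := Subgroup.mul_mem _ hviJ (Subgroup.mul_mem _ hvJ (Subgroup.mul_mem _ h4 (hHJ _ h)))
        have e : v ^ i * (v * (γ b * ((γ b)⁻¹ * (v⁻¹ * ((v ^ i)⁻¹ * x))))) = x := by group
        rwa [e] at h5
  · rw [pow_mul]
    exact N.pow_mem ⟨u0, hu0, hκ⟩ o
  · intro A _ π c hcw hcc
    have h3 : π v = c * π a := by
      rw [hvdef, map_mul, pi_qst π hcw ls rs f hf hlW hrW, ht', map_mul,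
        hcw _ (tl_mem ls f hf hlW), one_mul]
    have h4 := congrArg π hp'
    rw [map_mul, map_pow, h3, ht', map_mul, hcw _ (tl_mem ls f hf hlW)] at h4
    have h5 : (c * π a) ^ (r * o) = (c * π a) ^ (r * o - 1) * (c * π a) := by
      rw [← pow_succ]
      congr 1; omega
    rw [h5] at h4
    exact mul_right_cancel h4

end Pool.Agent.E8helper78.NC
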