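import Pool.Agent.E8helper78.NC.Ab

/-!
The homomorphism `h ↦ h⁻¹ a⁻¹ h a` of a group with central commutators, and the stages of
the coset path.
-/

namespace Pool.Agent.E8helper78.NC

universe u

variable {Γ : Type u} [Group Γ]

/-- all commutators are central -/
def CC (Γ : Type u) [Group Γ] : Prop :=
  ∀ x y z : Γ, z * (x⁻¹ * y⁻¹ * x * y) = (x⁻¹ * y⁻¹ * x * y) * z

/-- `h ↦ h⁻¹ a⁻¹ h a` -/
def phi (hc : CC Γ) (a : Γ) : Γ →* Γ :=
  MonoidHom.mk' (fun h => h⁻¹ * a⁻¹ * h * a) (by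
    intro h h'
    have e : (h * h')⁻¹ * a⁻¹ * (h * h') * a = h'⁻¹ * (h⁻¹ * a⁻¹ * h * a) * a⁻¹ * h' * a := by
      group
    rw [e, hc h a h'⁻¹]
    group)

theorem phi_apply (hc : CC Γ) (a h : Γ) : phi hc a h = h⁻¹ * a⁻¹ * h * a := rfl

theorem phi_comm (hc : CC Γ) (a h z : Γ) : z * phi hc a h = phi hc a h * z := hc h a z

theorem phi_inv_comm (hc : CC Γ) (a h z : Γ) : z * (phi hc a h)⁻¹ = (phi hc a h)⁻¹ * z := by
  rw [← map_inv]; exact phi_comm hc a h⁻¹ z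

theorem conj_eq (hc : CC Γ) (a h : Γ) : a⁻¹ * h * a = h * phi hc a h := by
  rw [phi_apply]; group

theorem conj_eq' (hc : CC Γ) (a h : Γ) : a * h * a⁻¹ = h * (phi hc a h)⁻¹ := by
  have h1 := phi_inv_comm hc a h a
  have e : a * h * a⁻¹ = h * (a * (phi hc a h)⁻¹ * a⁻¹) := by
    rw [phi_apply]; group
  rw [e, h1]; group

theorem step_eq (hc : CC Γ) (a f z : Γ) :
    f * a * (z⁻¹ * a⁻¹) = f * z⁻¹ * phi hc a z := by
  have h1 := conj_eq' hc a z⁻¹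
  rw [map_inv, inv_inv] at h1
  calc f * a * (z⁻¹ * a⁻¹) = f * (a * z⁻¹ * a⁻¹) := by simp only [mul_assoc]
    _ = _ := by rw [h1]; simp only [mul_assoc]

theorem phi_central (hc : CC Γ) (a : Γ) {z : Γ} (hz : ∀ g, g * z = z * g) : phi hc a z = 1 := by
  rw [phi_apply, mul_assoc z⁻¹, hz a⁻¹]; group

theorem conj_pow_eq (hc : CC Γ) (a h : Γ) (n : ℕ) :
    (a ^ n)⁻¹ * h * a ^ n = h * phi hc a h ^ n := by
  induction n with
  | zero => simp
  | succ n ih =>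
    have e : (a ^ (n + 1))⁻¹ * h * a ^ (n + 1) = a⁻¹ * ((a ^ n)⁻¹ * h * a ^ n) * a := by
      rw [pow_succ]; group
    have h1 : phi hc a (phi hc a h) = 1 := phi_central hc a (phi_comm hc a h)
    rw [e, ih, conj_eq hc, map_mul, map_pow, h1, one_pow, mul_one, pow_succ, mul_assoc]

theorem pow_mul_eq (hc : CC Γ) (a h : Γ) (n : ℕ) :
    (a * h) ^ n = a ^ n * h ^ n * phi hc a h ^ (n * (n - 1) / 2) := by
  induction n with
  | zero => simp
  | succ n ih =>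
    have e1 : (n + 1) * (n + 1 - 1) / 2 = n * (n - 1) / 2 + n := by
      rw [← Nat.triangle_succ n]
    have e2 : h ^ n * a = a * (h ^ n * phi hc a h ^ n) := by
      have := conj_eq hc a (h ^ n)
      rw [map_pow] at this
      rw [← this]; group
    have e3 : ∀ k : ℕ, ∀ z : Γ, phi hc a h ^ k * z = z * phi hc a h ^ k := by
      intro k z
      rw [← map_pow]; exact (phi_comm hc a _ z).symm
    rw [pow_succ, ih, e1, pow_add (phi hc a h), pow_succ a n, pow_succ h n]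
    calc a ^ n * h ^ n * phi hc a h ^ (n * (n - 1) / 2) * (a * h)
        = a ^ n * h ^ n * (phi hc a h ^ (n * (n - 1) / 2) * (a * h)) := by group
      _ = a ^ n * h ^ n * ((a * h) * phi hc a h ^ (n * (n - 1) / 2)) := by rw [e3]
      _ = a ^ n * (h ^ n * a) * h * phi hc a h ^ (n * (n - 1) / 2) := by simp only [mul_assoc]
      _ = a ^ n * a * h ^ n * (phi hc a h ^ n * h) * phi hc a h ^ (n * (n - 1) / 2) := by
          rw [e2]; simp only [mul_assoc]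
      _ = a ^ n * a * (h ^ n * h) * (phi hc a h ^ n * phi hc a h ^ (n * (n - 1) / 2)) := by
          rw [e3]; simp only [mul_assoc]
      _ = a ^ n * a * (h ^ n * h) * (phi hc a h ^ (n * (n - 1) / 2) * phi hc a h ^ n) := by
          rw [e3 n]

/-- the subgroup `φ(H) H` -/
def NN (hc : CC Γ) (a : Γ) (H : Subgroup Γ) : Subgroup Γ where
  carrier := {x | ∃ u ∈ H, (phi hc a u)⁻¹ * x ∈ H}
  one_mem' := ⟨1, H.one_mem, by simp⟩
  mul_mem' := by
    rintro x y ⟨u, hu, hx⟩ ⟨v, hv, hy⟩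
    refine ⟨u * v, H.mul_mem hu hv, ?_⟩
    have e : (phi hc a (u * v))⁻¹ * (x * y) = ((phi hc a u)⁻¹ * x) * ((phi hc a v)⁻¹ * y) := by
      rw [map_mul, mul_inv_rev]
      calc (phi hc a v)⁻¹ * (phi hc a u)⁻¹ * (x * y)
          = ((phi hc a v)⁻¹ * ((phi hc a u)⁻¹ * x)) * y := by simp only [mul_assoc]
        _ = (((phi hc a u)⁻¹ * x) * (phi hc a v)⁻¹) * y := by rw [phi_inv_comm hc a v]
        _ = _ := by simp only [mul_assoc]
    rw [e]; exact H.mul_mem hx hy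
  inv_mem' := by
    rintro x ⟨u, hu, hx⟩
    refine ⟨u⁻¹, H.inv_mem hu, ?_⟩
    have e : (phi hc a u⁻¹)⁻¹ * x⁻¹ = ((phi hc a u)⁻¹ * x)⁻¹ := by
      rw [map_inv, inv_inv, mul_inv_rev, inv_inv]; exact (phi_comm hc a u x⁻¹).symm
    rw [e]; exact H.inv_mem hx

theorem mem_NN {hc : CC Γ} {a : Γ} {H : Subgroup Γ} {x : Γ} :
    x ∈ NN hc a H ↔ ∃ u ∈ H, (phi hc a u)⁻¹ * x ∈ H := Iff.rfl

theorem H_le_NN (hc : CC Γ) (a : Γ) (H : Subgroup Γ) : H ≤ NN hc a H := by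
  intro h hh; exact ⟨1, H.one_mem, by simpa using hh⟩

theorem phi_mem_NN (hc : CC Γ) (a : Γ) (H : Subgroup Γ) {u : Γ} (hu : u ∈ H) :
    phi hc a u ∈ NN hc a H := ⟨u, hu, by simp⟩

theorem NN_norm (hc : CC Γ) (a : Γ) (H : Subgroup Γ) :
    ∀ n ∈ NN hc a H, a⁻¹ * n * a ∈ NN hc a H := by
  intro n hn
  have h1 := (NN hc a H).mul_mem hn (by
    obtain ⟨u, hu, hx⟩ := hn
    have e : phi hc a n = phi hc a ((phi hc a u)⁻¹ * n) := by
      rw [map_mul, map_inv, phi_central hc a (phi_comm hc a u)]; simp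
    rw [e]
    exact phi_mem_NN hc a H hx : phi hc a n ∈ NN hc a H)
  rw [conj_eq hc]; exact h1

theorem NN_le (hc : CC Γ) (a : Γ) (H : Subgroup Γ) : NN hc a H ≤ H ⊔ Subgroup.zpowers a := by
  rintro x ⟨u, hu, hx⟩
  have ha : a ∈ H ⊔ Subgroup.zpowers a := Subgroup.mem_sup_right (Subgroup.mem_zpowers a)
  have hu' : u ∈ H ⊔ Subgroup.zpowers a := Subgroup.mem_sup_left hu
  have h1 : phi hc a u ∈ H ⊔ Subgroup.zpowers a := by
    rw [phi_apply]
    exact Subgroup.mul_mem _ (Subgroup.mul_mem _ (Subgroup.mul_mem _ (Subgroup.inv_mem _ hu')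
      (Subgroup.inv_mem _ ha)) hu') ha
  have h2 := Subgroup.mul_mem _ h1 (Subgroup.mem_sup_left hx : _ ∈ H ⊔ Subgroup.zpowers a)
  simpa using h2

theorem sup_eq (hc : CC Γ) (a : Γ) (H : Subgroup Γ) :
    NN hc a H ⊔ Subgroup.zpowers a = H ⊔ Subgroup.zpowers a := by
  apply le_antisymm
  · exact sup_le (NN_le hc a H) le_sup_right
  · exact sup_le (le_trans (H_le_NN hc a H) le_sup_left) le_sup_right

theorem not_mem_NN (hc : CC Γ) {a : Γ} {H : Subgroup Γ} (ha : a ∉ H) : a ∉ NN hc a H := by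
  rintro ⟨u, hu, hx⟩
  apply ha
  set k := phi hc a u with hk
  set h := k⁻¹ * a with hh
  have hcen : ∀ z, z * k = k * z := phi_comm hc a u
  have h1 : k = u⁻¹ * h⁻¹ * u * h := by
    have e : u⁻¹ * h⁻¹ * u * h = u⁻¹ * a⁻¹ * (k * u) * (k⁻¹ * a) := by
      rw [hh]; group
    rw [e, ← hcen u]
    have e2 : u⁻¹ * a⁻¹ * (u * k) * (k⁻¹ * a) = u⁻¹ * a⁻¹ * u * a := by group
    rw [e2]; exact hk
  have h2 : k ∈ H := by
    rw [h1]
    exact H.mul_mem (H.mul_mem (H.mul_mem (H.inv_mem hu) (H.inv_mem hx)) hu) hx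
  have h3 := H.mul_mem h2 hx
  simpa [hh] using h3

/-- initial partial products -/
def ppi : List Γ → List Γ
  | [] => []
  | x :: l => 1 :: (ppi l).map (x * ·)

theorem ppi_cons (x : Γ) (l : List Γ) : ppi (x :: l) = 1 :: (ppi l).map (x * ·) := rfl

theorem pp_append' (ls rs : List Γ) : pp (ls ++ rs) = ppi ls ++ (pp rs).map (ls.prod * ·) := by
  induction ls with
  | nil => simp [ppi]
  | cons x ls ih =>
    rw [List.cons_append, pp_cons, ih, ppi_cons, List.map_append, List.map_map, List.cons_append]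
    congr 2
    apply List.map_congr_left
    intro y _
    simp [mul_assoc]

theorem pp_eq_ppi (ls : List Γ) : pp ls = ppi ls ++ [ls.prod] := by
  have := pp_append' ls []
  simpa using this

/-- one stage -/
def qst (a : Γ) : Γ → List Γ → List Γ → List Γ
  | f, y :: ls, z :: rs => (f * a) :: (z⁻¹ * a⁻¹) :: qst a y ls rs
  | _, _, _ => []

/-- last entry of `f :: ls` -/
def tl : Γ → List Γ → Γ
  | f, [] => f
  | _, y :: ls => tl y ls

omit [Group Γ] in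
theorem tl_mem {W : Set Γ} (ls : List Γ) : ∀ (f : Γ), f ∈ W → (∀ x ∈ ls, x ∈ W) → tl f ls ∈ W := by
  induction ls with
  | nil => intro f hf _; exact hf
  | cons y ls ih =>
    intro f _ h
    exact ih y (h y List.mem_cons_self) (fun x hx => h x (List.mem_cons_of_mem _ hx))

theorem cov_cons {H : Subgroup Γ} {s : Γ} {q : List Γ} {x : Γ} :
    x ∈ cov H (s :: q) ↔ x ∈ H ∨ s⁻¹ * x ∈ cov H q := by
  have := mem_cov_concat (H := H) (q1 := []) (t := s) (q2 := q) x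
  simp only [List.nil_append, List.prod_nil, one_mul] at this
  rw [this]
  have e2 : x ∈ cov H [] ↔ x ∈ H := by unfold cov; simp
  rw [e2]

theorem dis_cons {H : Subgroup Γ} {s : Γ} {q : List Γ} :
    dis H (s :: q) ↔ dis H q ∧ s⁻¹ ∉ cov H q := by
  unfold dis
  rw [pp_cons, List.pairwise_cons, List.pairwise_map]
  constructor
  · rintro ⟨h1, h2⟩
    refine ⟨h2.imp ?_, ?_⟩
    · intro a b hab h
      apply hab
      have : (s * a)⁻¹ * (s * b) = a⁻¹ * b := by group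
      rw [this]; exact h
    · rintro ⟨g, hg, hgs⟩
      apply h1 (s * g) (List.mem_map_of_mem hg)
      have : 1⁻¹ * (s * g) = (g⁻¹ * s⁻¹)⁻¹ := by group
      rw [this]; exact H.inv_mem hgs
  · rintro ⟨h1, h2⟩
    refine ⟨?_, h1.imp ?_⟩
    · intro x hx h
      rw [List.mem_map] at hx
      obtain ⟨g, hg, rfl⟩ := hx
      apply h2
      refine ⟨g, hg, ?_⟩
      have : g⁻¹ * s⁻¹ = (1⁻¹ * (s * g))⁻¹ := by group
      rw [this]; exact H.inv_mem h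
    · intro a b hab h
      apply hab
      have : a⁻¹ * b = (s * a)⁻¹ * (s * b) := by group
      rw [this]; exact h

theorem E1 (hc : CC Γ) {a : Γ} {H : Subgroup Γ} {f z : Γ} (hf : f ∈ H) (hz : z ∈ H) (b x : Γ) :
    (phi hc a b)⁻¹ * ((f * a * (z⁻¹ * a⁻¹))⁻¹ * x) ∈ H ↔ (phi hc a (z * b))⁻¹ * x ∈ H := by
  have h1 : f * a * (z⁻¹ * a⁻¹) = f * z⁻¹ * phi hc a z := step_eq hc a f z
  have h2 : (phi hc a b)⁻¹ * ((f * a * (z⁻¹ * a⁻¹))⁻¹ * x)
      = (f * z⁻¹)⁻¹ * ((phi hc a (z * b))⁻¹ * x) := by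
    rw [h1, mul_inv_rev _ (phi hc a z), map_mul, mul_inv_rev (phi hc a z)]
    have c2 : ∀ w, (phi hc a b)⁻¹ * w = w * (phi hc a b)⁻¹ :=
      fun w => (phi_inv_comm hc a b w).symm
    have c4 : ∀ w, (phi hc a z)⁻¹ * w = w * (phi hc a z)⁻¹ :=
      fun w => (phi_inv_comm hc a z w).symm
    calc (phi hc a b)⁻¹ * ((phi hc a z)⁻¹ * (f * z⁻¹)⁻¹ * x)
        = (phi hc a b)⁻¹ * ((f * z⁻¹)⁻¹ * (phi hc a z)⁻¹ * x) := by rw [c4]
      _ = (f * z⁻¹)⁻¹ * ((phi hc a z)⁻¹ * x) * (phi hc a b)⁻¹ := by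
          rw [c2]; simp only [mul_assoc]
      _ = (f * z⁻¹)⁻¹ * ((phi hc a b)⁻¹ * ((phi hc a z)⁻¹ * x)) := by
          rw [c2]; simp only [mul_assoc]
      _ = _ := by simp only [mul_assoc]
  rw [h2]
  exact H.mul_mem_cancel_left (H.inv_mem (H.mul_mem hf (H.inv_mem hz)))

theorem E2 (hc : CC Γ) {a : Γ} {H : Subgroup Γ} {f y z : Γ} (hy : y ∈ H) (hz : z ∈ H)
    (b x : Γ) :
    (phi hc a b * y * a)⁻¹ * ((f * a * (z⁻¹ * a⁻¹))⁻¹ * x) ∈ H ↔
      (phi hc a (y * b) * f * a)⁻¹ * x ∈ H := by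
  have h3 : (phi hc a b * y * a)⁻¹ * ((f * a * (z⁻¹ * a⁻¹))⁻¹ * x)
      = (y⁻¹ * z) * ((phi hc a (y * b) * f * a)⁻¹ * x) := by
    have hz' : f * a * (z⁻¹ * a⁻¹) = phi hc a z * (f * z⁻¹) := by
      rw [← phi_comm hc a z, step_eq hc]
    have hyz : a⁻¹ * (y⁻¹ * z) = (y⁻¹ * z) * (phi hc a y)⁻¹ * phi hc a z * a⁻¹ := by
      have := conj_eq hc a (y⁻¹ * z)
      rw [map_mul, map_inv] at this
      have e : a⁻¹ * (y⁻¹ * z) = (a⁻¹ * (y⁻¹ * z) * a) * a⁻¹ := by group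
      rw [e, this]; simp only [mul_assoc]
    have hL : (phi hc a b * y * a)⁻¹ * ((f * a * (z⁻¹ * a⁻¹))⁻¹ * x)
        = (a⁻¹ * (y⁻¹ * z)) * ((phi hc a b)⁻¹ * (f⁻¹ * ((phi hc a z)⁻¹ * x))) := by
      rw [hz']
      have e1 : (phi hc a b * y * a)⁻¹ * ((phi hc a z * (f * z⁻¹))⁻¹ * x)
          = a⁻¹ * y⁻¹ * ((phi hc a b)⁻¹ * (z * f⁻¹ * ((phi hc a z)⁻¹ * x))) := by
        group
      have e2 : (phi hc a b)⁻¹ * (z * f⁻¹ * ((phi hc a z)⁻¹ * x))
          = z * ((phi hc a b)⁻¹ * (f⁻¹ * ((phi hc a z)⁻¹ * x))) := by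
        rw [← mul_assoc z, phi_inv_comm hc a b z]; simp only [mul_assoc]
      rw [e1, e2]; simp only [mul_assoc]
    rw [hL, hyz, map_mul]
    -- collect the central factors
    have c1 : ∀ w, phi hc a z * w = w * phi hc a z := fun w => (phi_comm hc a z w).symm
    have c2 : ∀ w, (phi hc a b)⁻¹ * w = w * (phi hc a b)⁻¹ :=
      fun w => (phi_inv_comm hc a b w).symm
    have c3 : ∀ w, (phi hc a y)⁻¹ * w = w * (phi hc a y)⁻¹ :=
      fun w => (phi_inv_comm hc a y w).symm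
    have c4 : ∀ w, (phi hc a z)⁻¹ * w = w * (phi hc a z)⁻¹ :=
      fun w => (phi_inv_comm hc a z w).symm
    calc (y⁻¹ * z) * (phi hc a y)⁻¹ * phi hc a z * a⁻¹ *
          ((phi hc a b)⁻¹ * (f⁻¹ * ((phi hc a z)⁻¹ * x)))
        = (y⁻¹ * z) * ((phi hc a y)⁻¹ * (phi hc a z * (a⁻¹ *
          ((phi hc a b)⁻¹ * (f⁻¹ * ((phi hc a z)⁻¹ * x)))))) := by simp only [mul_assoc]
      _ = (y⁻¹ * z) * ((phi hc a y)⁻¹ * (phi hc a z * (a⁻¹ *
          ((f⁻¹ * ((phi hc a z)⁻¹ * x)) * (phi hc a b)⁻¹)))) := by rw [c2]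
      _ = (y⁻¹ * z) * ((phi hc a y)⁻¹ * (phi hc a z * (a⁻¹ *
          ((f⁻¹ * (x * (phi hc a z)⁻¹)) * (phi hc a b)⁻¹)))) := by rw [c4]
      _ = (y⁻¹ * z) * ((phi hc a y)⁻¹ * ((a⁻¹ *
          ((f⁻¹ * (x * (phi hc a z)⁻¹)) * (phi hc a b)⁻¹)) * phi hc a z)) := by rw [c1]
      _ = (y⁻¹ * z) * (((a⁻¹ *
          ((f⁻¹ * (x * (phi hc a z)⁻¹)) * (phi hc a b)⁻¹)) * phi hc a z) * (phi hc a y)⁻¹) := by
          rw [c3]
      _ = (y⁻¹ * z) * (a⁻¹ * f⁻¹ * x * ((phi hc a z)⁻¹ * ((phi hc a b)⁻¹ * phi hc a z) *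
          (phi hc a y)⁻¹)) := by simp only [mul_assoc]
      _ = (y⁻¹ * z) * (a⁻¹ * f⁻¹ * x * ((phi hc a b)⁻¹ * (phi hc a y)⁻¹)) := by
          rw [c2]; simp only [inv_mul_cancel_left]
      _ = (y⁻¹ * z) * (((phi hc a y * phi hc a b) * f * a)⁻¹ * x) := by
          have e5 : ((phi hc a y * phi hc a b) * f * a)⁻¹ * x
              = a⁻¹ * f⁻¹ * ((phi hc a b)⁻¹ * ((phi hc a y)⁻¹ * x)) := by group
          rw [e5, c3, ← mul_assoc ((phi hc a b)⁻¹), c2 x]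
          congr 1
          simp only [mul_assoc]
  rw [h3]
  exact H.mul_mem_cancel_left (H.mul_mem (H.inv_mem hy) hz)

end Pool.Agent.E8helper78.NC
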