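import Pool.Agent.E8helper78.NC.Phi

/-!
Description of one stage of the coset path.
-/

namespace Pool.Agent.E8helper78.NC

universe u v

variable {Γ : Type u} [Group Γ]

/-- the set covered by a stage -/
theorem cov_qst (hc : CC Γ) {a : Γ} {H : Subgroup Γ} :
    ∀ (ls rs : List Γ) (f : Γ), ls.length = rs.length → f ∈ H → (∀ x ∈ ls, x ∈ H) →
      (∀ x ∈ rs, x ∈ H) → ∀ x, x ∈ cov H (qst a f ls rs) ↔
        (∃ b ∈ pp rs, (phi hc a b)⁻¹ * x ∈ H) ∨
        (∃ b ∈ ppi ls, (phi hc a b * f * a)⁻¹ * x ∈ H) := by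
  intro ls
  induction ls with
  | nil =>
    intro rs f hl hf _ _ x
    cases rs with
    | nil => simp [qst, ppi, cov]
    | cons z rs => simp at hl
  | cons y ls ih =>
    intro rs f hl hf hls hrs x
    cases rs with
    | nil => simp at hl
    | cons z rs =>
      have hy : y ∈ H := hls y List.mem_cons_self
      have hz : z ∈ H := hrs z List.mem_cons_self
      have ih' := ih rs y (by simpa using hl) hy (fun x hx => hls x (List.mem_cons_of_mem _ hx))
        (fun x hx => hrs x (List.mem_cons_of_mem _ hx))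
      rw [qst, cov_cons, cov_cons]
      have e : (z⁻¹ * a⁻¹)⁻¹ * ((f * a)⁻¹ * x) = (f * a * (z⁻¹ * a⁻¹))⁻¹ * x := by group
      rw [e, ih', pp_cons, ppi_cons]
      simp only [E1 hc hf hz, E2 hc hy hz, List.mem_cons, List.mem_map]
      constructor
      · rintro (h | h | ⟨b, hb, h⟩ | ⟨b, hb, h⟩)
        · exact Or.inl ⟨1, Or.inl rfl, by simpa using h⟩
        · exact Or.inr ⟨1, Or.inl rfl, by simpa using h⟩
        · exact Or.inl ⟨z * b, Or.inr ⟨b, hb, rfl⟩, h⟩
        · exact Or.inr ⟨y * b, Or.inr ⟨b, hb, rfl⟩, h⟩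
      · rintro (⟨b, rfl | ⟨b, hb, rfl⟩, h⟩ | ⟨b, rfl | ⟨b, hb, rfl⟩, h⟩)
        · exact Or.inl (by simpa using h)
        · exact Or.inr (Or.inr (Or.inl ⟨b, hb, h⟩))
        · exact Or.inr (Or.inl (by simpa using h))
        · exact Or.inr (Or.inr (Or.inr ⟨b, hb, h⟩))

theorem pw_cons {R : Subgroup Γ} {s : Γ} {l : List Γ} (h : dis R (s :: l)) :
    dis R l ∧ ∀ b ∈ pp l, s * b ∉ R := by
  rw [dis_cons] at h
  refine ⟨h.1, ?_⟩
  intro b hb hR
  apply h.2
  refine ⟨b, hb, ?_⟩
  have : b⁻¹ * s⁻¹ = (s * b)⁻¹ := by group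
  rw [this]; exact R.inv_mem hR

theorem ppi_sub {l : List Γ} {b : Γ} (hb : b ∈ ppi l) : b ∈ pp l := by
  rw [pp_eq_ppi]; exact List.mem_append_left _ hb

theorem pp_mem {H : Subgroup Γ} : ∀ {l : List Γ}, (∀ x ∈ l, x ∈ H) → ∀ b ∈ pp l, b ∈ H := by
  intro l
  induction l with
  | nil => intro _ b hb; simp at hb; subst hb; exact H.one_mem
  | cons s l ih =>
    intro h b hb
    rw [pp_cons, List.mem_cons, List.mem_map] at hb
    rcases hb with rfl | ⟨c, hc, rfl⟩
    · exact H.one_mem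
    · exact H.mul_mem (h s List.mem_cons_self) (ih (fun x hx => h x (List.mem_cons_of_mem _ hx)) c hc)

theorem a_mem_NN_of (hc : CC Γ) {a : Γ} {H : Subgroup Γ} {b f : Γ} (hb : b ∈ H) (hf : f ∈ H)
    (h : (phi hc a b)⁻¹ * (f * a) ∈ H) : a ∈ NN hc a H := by
  refine ⟨b, hb, ?_⟩
  have e : (phi hc a b)⁻¹ * a = f⁻¹ * ((phi hc a b)⁻¹ * (f * a)) := by
    rw [← mul_assoc f⁻¹, phi_inv_comm hc a b f⁻¹]
    group
  rw [e]; exact H.mul_mem (H.inv_mem hf) h

theorem a_mem_NN_of' (hc : CC Γ) {a : Γ} {H : Subgroup Γ} {b f : Γ} (hb : b ∈ H) (hf : f ∈ H)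
    (h : phi hc a b * f * a ∈ H) : a ∈ NN hc a H := by
  refine a_mem_NN_of hc (H.inv_mem hb) hf ?_
  rw [map_inv, inv_inv, ← mul_assoc]; exact h

/-- the cosets visited in a stage are different; `R` is such that `φ b ∈ H` implies `b ∈ R` -/
theorem dis_qst (hc : CC Γ) {a : Γ} {H R : Subgroup Γ} (ha : a ∉ NN hc a H)
    (hR : ∀ b ∈ H, phi hc a b ∈ H → b ∈ R) :
    ∀ (ls rs : List Γ) (f : Γ), ls.length = rs.length → f ∈ H → (∀ x ∈ ls, x ∈ H) →
      (∀ x ∈ rs, x ∈ H) → dis R ls → dis R rs → dis H (qst a f ls rs) := by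
  intro ls
  induction ls with
  | nil =>
    intro rs f hl hf _ _ _ _
    cases rs with
    | nil => simp [qst, dis]
    | cons z rs => simp at hl
  | cons y ls ih =>
    intro rs f hl hf hls hrs dl dr
    cases rs with
    | nil => simp at hl
    | cons z rs =>
      have hy : y ∈ H := hls y List.mem_cons_self
      have hz : z ∈ H := hrs z List.mem_cons_self
      have hls' : ∀ x ∈ ls, x ∈ H := fun x hx => hls x (List.mem_cons_of_mem _ hx)
      have hrs' : ∀ x ∈ rs, x ∈ H := fun x hx => hrs x (List.mem_cons_of_mem _ hx)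
      have hl' : ls.length = rs.length := by simpa using hl
      obtain ⟨dl1, dl2⟩ := pw_cons dl
      obtain ⟨dr1, dr2⟩ := pw_cons dr
      have ih' := ih rs y hl' hy hls' hrs' dl1 dr1
      have hcov := cov_qst hc (a := a) ls rs y hl' hy hls' hrs'
      rw [qst, dis_cons, dis_cons]
      refine ⟨⟨ih', ?_⟩, ?_⟩
      · have e : (z⁻¹ * a⁻¹)⁻¹ = (f * a * (z⁻¹ * a⁻¹))⁻¹ * (f * a) := by group
        rw [e, hcov]
        simp only [E1 hc hf hz, E2 hc hy hz]
        rintro (⟨b, hb, h⟩ | ⟨b, hb, h⟩)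
        · exact ha (a_mem_NN_of hc (H.mul_mem hz (pp_mem hrs' b hb)) hf h)
        · have hb' := ppi_sub hb
          apply dl2 b hb'
          apply hR _ (H.mul_mem hy (pp_mem hls' b hb'))
          have e3 : (phi hc a (y * b) * f * a)⁻¹ * (f * a) = (phi hc a (y * b))⁻¹ := by
            have e4 : (phi hc a (y * b) * f * a)⁻¹ * (f * a) =
              (f * a)⁻¹ * ((phi hc a (y * b))⁻¹ * (f * a)) := by group
            rw [e4, ← mul_assoc, phi_inv_comm hc a (y * b) (f * a)⁻¹]; group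
          rw [e3] at h
          have := H.inv_mem h
          rwa [inv_inv] at this
      · rw [cov_cons, not_or]
        constructor
        · intro h
          have h1 := H.inv_mem h
          rw [inv_inv] at h1
          have h2 := H.mul_mem (H.inv_mem hf) h1
          rw [inv_mul_cancel_left] at h2
          exact ha (H_le_NN hc a H h2)
        · have e : (z⁻¹ * a⁻¹)⁻¹ * (f * a)⁻¹ = (f * a * (z⁻¹ * a⁻¹))⁻¹ * 1 := by group
          rw [e, hcov]
          simp only [E1 hc hf hz, E2 hc hy hz]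
          rintro (⟨b, hb, h⟩ | ⟨b, hb, h⟩)
          · apply dr2 b hb
            apply hR _ (H.mul_mem hz (pp_mem hrs' b hb))
            rw [mul_one] at h
            have := H.inv_mem h
            rwa [inv_inv] at this
          · have hb' := ppi_sub hb
            rw [mul_one] at h
            have := H.inv_mem h
            rw [inv_inv] at this
            exact ha (a_mem_NN_of' hc (H.mul_mem hy (pp_mem hls' b hb')) hf this)

/-- the end of a stage -/
theorem prod_qst (hc : CC Γ) {a : Γ} {H : Subgroup Γ} :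
    ∀ (ls rs : List Γ) (f : Γ), ls.length = rs.length → f ∈ H → (∀ x ∈ ls, x ∈ H) →
      (∀ x ∈ rs, x ∈ H) →
      (phi hc a ls.prod * f * a)⁻¹ * ((qst a f ls rs).prod * (tl f ls * a)) ∈ H := by
  intro ls
  induction ls with
  | nil =>
    intro rs f hl hf _ _
    cases rs with
    | nil => simp [qst, tl]
    | cons z rs => simp at hl
  | cons y ls ih =>
    intro rs f hl hf hls hrs
    cases rs with
    | nil => simp at hl
    | cons z rs =>
      have hy : y ∈ H := hls y List.mem_cons_self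
      have hz : z ∈ H := hrs z List.mem_cons_self
      have ih' := ih rs y (by simpa using hl) hy (fun x hx => hls x (List.mem_cons_of_mem _ hx))
        (fun x hx => hrs x (List.mem_cons_of_mem _ hx))
      rw [qst, tl, List.prod_cons, List.prod_cons, List.prod_cons, ← E2 hc hy hz]
      have e : (f * a * (z⁻¹ * a⁻¹))⁻¹ * (f * a * (z⁻¹ * a⁻¹ * (qst a y ls rs).prod) *
          (tl y ls * a)) = (qst a y ls rs).prod * (tl y ls * a) := by group
      rw [e]; exact ih'

/-- the steps of a stage -/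
theorem steps_qst {a : Γ} {W : Set Γ} (hW : ∀ w ∈ W, w⁻¹ ∈ W) :
    ∀ (ls rs : List Γ) (f : Γ), f ∈ W → (∀ x ∈ ls, x ∈ W) →
      (∀ x ∈ rs, x ∈ W) → ∀ s ∈ qst a f ls rs, s ∈ Stp W a := by
  intro ls
  induction ls with
  | nil => intro rs f _ _ _ s hs; simp [qst] at hs
  | cons y ls ih =>
    intro rs f hf hls hrs s hs
    cases rs with
    | nil => simp [qst] at hs
    | cons z rs =>
      rw [qst, List.mem_cons, List.mem_cons] at hs
      rcases hs with rfl | rfl | hs
      · exact ⟨f, hf, Or.inl rfl⟩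
      · exact ⟨z⁻¹, hW z (hrs z List.mem_cons_self), Or.inr rfl⟩
      · exact ih rs y (hls y List.mem_cons_self) (fun x hx => hls x (List.mem_cons_of_mem _ hx))
          (fun x hx => hrs x (List.mem_cons_of_mem _ hx)) s hs

theorem pi_qst {A : Type v} [CommGroup A] (π : Γ →* A) {a : Γ} {W : Set Γ} {c : A}
    (hc1 : ∀ w ∈ W, π w = c) :
    ∀ (ls rs : List Γ) (f : Γ), f ∈ W → (∀ x ∈ ls, x ∈ W) →
      (∀ x ∈ rs, x ∈ W) → π (qst a f ls rs).prod = 1 := by
  intro ls
  induction ls with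
  | nil => intro rs f _ _ _; simp [qst]
  | cons y ls ih =>
    intro rs f hf hls hrs
    cases rs with
    | nil => simp [qst]
    | cons z rs =>
      have h1 := ih rs y (hls y List.mem_cons_self) (fun x hx => hls x (List.mem_cons_of_mem _ hx))
          (fun x hx => hrs x (List.mem_cons_of_mem _ hx))
      have h2 := hc1 f hf
      have h3 := hc1 z (hrs z List.mem_cons_self)
      simp only [qst, List.prod_cons, map_mul, map_inv, h1, h2, h3]
      rw [mul_one, ← mul_inv, mul_inv_cancel]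

/-- level of an element modulo `N` -/
def lev (N : Subgroup Γ) (a : Γ) (x : Γ) (j : ℕ) : Prop := (a ^ j)⁻¹ * x ∈ N

theorem lev_mul {N : Subgroup Γ} {a x y : Γ} {i j : ℕ} (hn : ∀ v ∈ N, a⁻¹ * v * a ∈ N)
    (hx : lev N a x i) (hy : lev N a y j) : lev N a (x * y) (i + j) := by
  unfold lev at *
  have h1 := conj_pow_mem hn j _ hx
  have e : (a ^ (i + j))⁻¹ * (x * y) = ((a ^ j)⁻¹ * ((a ^ i)⁻¹ * x) * a ^ j) * ((a ^ j)⁻¹ * y) := by
    rw [pow_add]; group
  rw [e]; exact N.mul_mem h1 hy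

theorem lev_pow {N : Subgroup Γ} {a x : Γ} {i : ℕ} (hn : ∀ v ∈ N, a⁻¹ * v * a ∈ N)
    (hx : lev N a x i) (k : ℕ) : lev N a (x ^ k) (i * k) := by
  induction k with
  | zero => simp [lev]
  | succ k ih =>
    rw [pow_succ]
    exact lev_mul hn ih hx

theorem lev_zero {N : Subgroup Γ} {a x : Γ} (hx : x ∈ N) : lev N a x 0 := by
  simpa [lev] using hx

theorem lev_sub {N : Subgroup Γ} {a x : Γ} {i j : ℕ} (hi : lev N a x i) (hj : lev N a x j)
    (hij : i ≤ j) : a ^ (j - i) ∈ N := by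
  unfold lev at *
  have e : a ^ (j - i) = ((a ^ i)⁻¹ * x) * ((a ^ j)⁻¹ * x)⁻¹ := by
    have : a ^ j = a ^ i * a ^ (j - i) := by rw [← pow_add]; congr 1; omega
    rw [this]; group
  rw [e]; exact N.mul_mem hi (N.inv_mem hj)

theorem lev_quot {N : Subgroup Γ} {a x y : Γ} {i : ℕ} (hx : lev N a x i) (hy : lev N a y i) :
    x⁻¹ * y ∈ N := by
  unfold lev at *
  have e : x⁻¹ * y = ((a ^ i)⁻¹ * x)⁻¹ * ((a ^ i)⁻¹ * y) := by group
  rw [e]; exact N.mul_mem (N.inv_mem hx) hy

end Pool.Agent.E8helper78.NC
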